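import Mathlib

/-!
# MP_458f19_an, Q1: renorming to fail the `(-1)`-ball-covering property

Let `κ` be an infinite cardinal and let the Banach space `X` contain an isomorphic copy of
`ℓ₁(κ⁺)`.  Then `X` has an equivalent norm that fails the `(-1)`-BCP for `κ`.

Proof.  Let `e γ` (`γ ∈ Γ`, `#Γ = κ⁺`) be the images of the unit vectors, scaled such that
`c ∑ |z γ| ≤ ‖∑ z γ • e γ‖ ≤ ∑ |z γ|`.  Put `C = 2 / c + 1` and let
`q y = sup_N inf_z (C ‖y + L z‖ - ∑ |z γ|)`, where `N` runs through the subsets of `Γ` of cardinality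
at most `κ` and `z` through the finitely supported vectors vanishing on `N`.  Since one can take
disjointly supported `z`, `q` is an equivalent norm, and `q (y + L w) ≥ q y + ∑ |w γ|` for all `w`
vanishing on a small set that depends on `y` only.  Then
`N₁ x = inf_w (q (x - L w) + ∑ |w γ|)` is an equivalent norm such that for each `y`, for all but `κ`
many `γ`, `N₁ (y + r • e γ) = N₁ y + |r|` for all real `r`.
-/

set_option autoImplicit false

open Cardinal Set

namespace Pool.Agent.H67Q.RenormBCP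

universe u

section

variable {Γ : Type u}

/-- the `ℓ₁`-norm of a finitely supported vector -/
noncomputable def nn (z : Γ →₀ ℝ) : ℝ := z.sum fun _ a => |a|

theorem nn_eq (z : Γ →₀ ℝ) {s : Finset Γ} (h : z.support ⊆ s) : nn z = ∑ γ ∈ s, |z γ| :=
  Finsupp.sum_of_support_subset _ h _ (by simp)

theorem nn_nonneg (z : Γ →₀ ℝ) : 0 ≤ nn z := Finset.sum_nonneg fun _ _ => abs_nonneg _

theorem nn_zero : nn (0 : Γ →₀ ℝ) = 0 := by simp [nn]

theorem nn_single (γ : Γ) (r : ℝ) : nn (Finsupp.single γ r) = |r| := by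
  simp [nn]

theorem nn_smul (r : ℝ) (z : Γ →₀ ℝ) : nn (r • z) = |r| * nn z := by
  classical
  rw [nn_eq (r • z) Finsupp.support_smul, nn_eq z subset_rfl, Finset.mul_sum]
  simp [abs_mul]

theorem nn_neg (z : Γ →₀ ℝ) : nn (-z) = nn z := by
  have := nn_smul (-1) z
  simpa using this

theorem nn_add (z w : Γ →₀ ℝ) : nn (z + w) ≤ nn z + nn w := by
  classical
  have h1 : (z + w).support ⊆ z.support ∪ w.support := Finsupp.support_add
  rw [nn_eq (z + w) h1, nn_eq z (Finset.subset_union_left (s₂ := w.support)),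
    nn_eq w (Finset.subset_union_right (s₁ := z.support)), ← Finset.sum_add_distrib]
  exact Finset.sum_le_sum fun γ _ => by simpa using abs_add_le (z γ) (w γ)

theorem nn_add_of_disjoint {z w : Γ →₀ ℝ} (h : ∀ γ, z γ = 0 ∨ w γ = 0) :
    nn (z + w) = nn z + nn w := by
  classical
  have h1 : (z + w).support ⊆ z.support ∪ w.support := Finsupp.support_add
  rw [nn_eq (z + w) h1, nn_eq z (Finset.subset_union_left (s₂ := w.support)),
    nn_eq w (Finset.subset_union_right (s₁ := z.support)), ← Finset.sum_add_distrib]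
  refine Finset.sum_congr rfl fun γ _ => ?_
  rcases h γ with h | h <;> simp [h]

end

section main

variable {X : Type u} [NormedAddCommGroup X] [NormedSpace ℝ X] {Γ : Type u}

/-- `z` vanishes on `N` -/
def Off (N : Set Γ) (z : Γ →₀ ℝ) : Prop := ∀ γ ∈ N, z γ = 0

theorem Off.mono {N M : Set Γ} (h : N ⊆ M) {z : Γ →₀ ℝ} (hz : Off M z) : Off N z :=
  fun γ hγ => hz γ (h hγ)

theorem Off.add {N : Set Γ} {z w : Γ →₀ ℝ} (hz : Off N z) (hw : Off N w) : Off N (z + w) :=
  fun γ hγ => by simp [hz γ hγ, hw γ hγ]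

theorem Off.smul {N : Set Γ} {z : Γ →₀ ℝ} (r : ℝ) (hz : Off N z) : Off N (r • z) :=
  fun γ hγ => by simp [hz γ hγ]

/-- The data: a linear map on the finitely supported vectors which is an isomorphism for the
`ℓ₁`-norm. -/
structure Dat (X : Type u) [NormedAddCommGroup X] [NormedSpace ℝ X] (Γ : Type u) where
  /-- the map -/
  L : (Γ →₀ ℝ) →ₗ[ℝ] X
  /-- the lower constant -/
  c : ℝ
  c_pos : 0 < c
  lower : ∀ z, c * nn z ≤ ‖L z‖
  upper : ∀ z, ‖L z‖ ≤ nn z
  /-- the cardinal -/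
  κ : Cardinal.{u}
  inf : ℵ₀ ≤ κ

namespace Dat

variable (D : Dat X Γ)

/-- the constant -/
noncomputable def C : ℝ := 2 / D.c + 1

theorem C_pos : 0 < D.C := by
  have := D.c_pos
  unfold C
  positivity

theorem C_mul : 1 ≤ D.C * D.c := by
  have := D.c_pos
  have h : D.C * D.c = 2 + D.c := by
    unfold C
    field_simp
  rw [h]
  linarith

/-- the defining set -/
def T (y : X) : Set ℝ :=
  {t | ∃ N : Set Γ, #N ≤ D.κ ∧ ∀ z : Γ →₀ ℝ, Off N z → t ≤ D.C * ‖y + D.L z‖ - nn z}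

theorem T_bdd (y : X) : ∀ t ∈ D.T y, t ≤ D.C * ‖y‖ := by
  rintro t ⟨N, -, h⟩
  have := h 0 (fun _ _ => rfl)
  simpa [nn_zero] using this

theorem T_bddAbove (y : X) : BddAbove (D.T y) := ⟨_, D.T_bdd y⟩

theorem generic (y : X) : ∃ N : Set Γ, #N ≤ D.κ ∧ ∀ z : Γ →₀ ℝ, Off N z →
    D.c * nn z ≤ ‖y + D.L z‖ := by
  by_cases h : ∃ z, ‖y + D.L z‖ < D.c * nn z
  · obtain ⟨z, hz⟩ := h
    refine ⟨(z.support : Set Γ), ?_, fun w hw => ?_⟩
    · exact ((Cardinal.lt_aleph0_iff_set_finite.2 z.support.finite_toSet).le).trans D.inf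
    · by_contra hcon
      push Not at hcon
      have h1 : nn (z + (-w)) = nn z + nn w := by
        rw [nn_add_of_disjoint, nn_neg]
        intro γ
        by_cases hγ : z γ = 0
        · exact Or.inl hγ
        · right
          have := hw γ (by simpa using hγ)
          simp [this]
      have h2 := D.lower (z + (-w))
      rw [h1] at h2
      have h3 : D.L (z + (-w)) = (y + D.L z) - (y + D.L w) := by
        rw [map_add, map_neg]
        abel
      rw [h3] at h2
      have h4 := norm_sub_le (y + D.L z) (y + D.L w)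
      linarith
  · push Not at h
    exact ⟨∅, by simp, fun z _ => h z⟩

theorem norm_mem_T (y : X) : ‖y‖ ∈ D.T y := by
  obtain ⟨N, hN, h⟩ := D.generic y
  refine ⟨N, hN, fun z hz => ?_⟩
  have h1 := h z hz
  have hc := D.c_pos
  have h2 : ‖y‖ ≤ ‖y + D.L z‖ + nn z := by
    have h3 : y = (y + D.L z) - D.L z := by abel
    have h4 := norm_sub_le (y + D.L z) (D.L z)
    rw [← h3] at h4
    linarith [D.upper z]
  have h5 : nn z ≤ ‖y + D.L z‖ / D.c := by
    rw [le_div_iff₀ hc]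
    linarith
  have h6 : D.C * ‖y + D.L z‖ = 2 * (‖y + D.L z‖ / D.c) + ‖y + D.L z‖ := by
    unfold C
    ring
  rw [h6]
  linarith

/-- the first new norm -/
noncomputable def q (y : X) : ℝ := sSup (D.T y)

theorem norm_le_q (y : X) : ‖y‖ ≤ D.q y := le_csSup (D.T_bddAbove y) (D.norm_mem_T y)

theorem q_le (y : X) : D.q y ≤ D.C * ‖y‖ := csSup_le ⟨_, D.norm_mem_T y⟩ (D.T_bdd y)

theorem q_nonneg (y : X) : 0 ≤ D.q y := (norm_nonneg y).trans (D.norm_le_q y)

theorem small_iUnion {ι : Type u} {f : ι → Set Γ} (hι : #ι ≤ D.κ) (hf : ∀ i, #(f i) ≤ D.κ) :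
    #(⋃ i, f i) ≤ D.κ := by
  refine (Cardinal.mk_iUnion_le f).trans ?_
  have h1 : (⨆ i, #(f i)) ≤ D.κ := ciSup_le' hf
  calc #ι * (⨆ i, #(f i)) ≤ D.κ * D.κ := mul_le_mul' hι h1
    _ = D.κ := Cardinal.mul_eq_self D.inf

theorem small_union {s t : Set Γ} (hs : #s ≤ D.κ) (ht : #t ≤ D.κ) : #(s ∪ t : Set Γ) ≤ D.κ := by
  refine (Cardinal.mk_union_le s t).trans ?_
  calc #s + #t ≤ D.κ + D.κ := add_le_add hs ht
    _ = D.κ := Cardinal.add_eq_self D.inf

theorem small_iUnion_countable {ι : Type} [Countable ι] {f : ι → Set Γ}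
    (hf : ∀ i, #(f i) ≤ D.κ) : #(⋃ i, f i) ≤ D.κ := by
  have h1 : (⋃ i, f i) = ⋃ i : ULift.{u} ι, f i.down := by
    ext x
    simp
  rw [h1]
  refine D.small_iUnion ?_ fun i => hf i.down
  exact (Cardinal.mk_le_aleph0 (α := ULift.{u} ι)).trans D.inf

theorem small_finset (F : Finset Γ) : #(F : Set Γ) ≤ D.κ :=
  ((Cardinal.lt_aleph0_iff_set_finite.2 F.finite_toSet).le).trans D.inf

/-- property (P) -/
theorem q_att (y : X) : ∃ N : Set Γ, #N ≤ D.κ ∧ ∀ z : Γ →₀ ℝ, Off N z →
    D.q y ≤ D.C * ‖y + D.L z‖ - nn z := by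
  have h : ∀ n : ℕ, ∃ N : Set Γ, #N ≤ D.κ ∧ ∀ z : Γ →₀ ℝ, Off N z →
      D.q y - 1 / (n + 1) ≤ D.C * ‖y + D.L z‖ - nn z := by
    intro n
    have h1 : D.q y - 1 / (n + 1) < D.q y := by
      have : (0 : ℝ) < 1 / (n + 1) := by positivity
      linarith
    obtain ⟨t, ⟨N, hN, ht⟩, h2⟩ := exists_lt_of_lt_csSup ⟨_, D.norm_mem_T y⟩ h1
    exact ⟨N, hN, fun z hz => h2.le.trans (ht z hz)⟩
  choose N hN hz using h
  refine ⟨⋃ n, N n, D.small_iUnion_countable hN, fun z hoff => ?_⟩
  refine le_of_forall_pos_le_add fun ε hε => ?_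
  obtain ⟨n, hn⟩ := exists_nat_one_div_lt hε
  have := hz n z (hoff.mono (subset_iUnion N n))
  linarith

/-- property (Q) -/
theorem q_approx (y : X) {N : Set Γ} (hN : #N ≤ D.κ) {η : ℝ} (hη : 0 < η) :
    ∃ z : Γ →₀ ℝ, Off N z ∧ D.C * ‖y + D.L z‖ - nn z < D.q y + η := by
  by_contra hcon
  push Not at hcon
  have h1 : D.q y + η ∈ D.T y := ⟨N, hN, hcon⟩
  have h2 := le_csSup (D.T_bddAbove y) h1
  have h3 : sSup (D.T y) = D.q y := rfl
  linarith

theorem q_add (x y : X) : D.q (x + y) ≤ D.q x + D.q y := by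
  refine le_of_forall_pos_le_add fun ε hε => ?_
  obtain ⟨N, hN, h⟩ := D.q_att (x + y)
  obtain ⟨z, hz, h1⟩ := D.q_approx x hN (half_pos hε)
  obtain ⟨w, hw, h2⟩ := D.q_approx y (D.small_union hN (D.small_finset z.support)) (half_pos hε)
  have h3 := h (z + w) (hz.add (hw.mono subset_union_left))
  have h4 : nn (z + w) = nn z + nn w := by
    apply nn_add_of_disjoint
    intro γ
    by_cases hγ : z γ = 0
    · exact Or.inl hγ
    · exact Or.inr (hw γ (Or.inr (by simpa using hγ)))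
  have h5 : ‖x + y + D.L (z + w)‖ ≤ ‖x + D.L z‖ + ‖y + D.L w‖ := by
    have : x + y + D.L (z + w) = (x + D.L z) + (y + D.L w) := by
      rw [map_add]
      abel
    rw [this]
    exact norm_add_le _ _
  have h6 := mul_le_mul_of_nonneg_left h5 D.C_pos.le
  rw [h4] at h3
  linarith

theorem q_smul_le (r : ℝ) (y : X) : D.q (r • y) ≤ ‖r‖ * D.q y := by
  rw [Real.norm_eq_abs]
  have key : ∀ η : ℝ, 0 < η → D.q (r • y) ≤ |r| * (D.q y + η) := by
    intro η hη
    obtain ⟨N, hN, h⟩ := D.q_att (r • y)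
    obtain ⟨z, hz, h1⟩ := D.q_approx y hN hη
    have h2 := h (r • z) (hz.smul r)
    have h3 : r • y + D.L (r • z) = r • (y + D.L z) := by
      rw [map_smul, smul_add]
    rw [h3, norm_smul, nn_smul, Real.norm_eq_abs] at h2
    have h4 : D.C * (|r| * ‖y + D.L z‖) - |r| * nn z = |r| * (D.C * ‖y + D.L z‖ - nn z) := by
      ring
    rw [h4] at h2
    exact h2.trans (mul_le_mul_of_nonneg_left h1.le (abs_nonneg r))
  refine le_of_forall_pos_le_add fun ε hε => ?_
  have h1 := key (ε / (|r| + 1)) (by positivity)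
  have h2 : |r| * (ε / (|r| + 1)) ≤ ε := by
    rw [mul_div_assoc', div_le_iff₀ (by positivity)]
    nlinarith [abs_nonneg r]
  linarith [mul_add (|r|) (D.q y) (ε / (|r| + 1))]

theorem q_zero : D.q (0 : X) = 0 := by
  apply le_antisymm
  · have := D.q_le (0 : X)
    simpa using this
  · exact D.q_nonneg 0

/-- generic additivity -/
theorem q_generic (y : X) : ∃ N : Set Γ, #N ≤ D.κ ∧ ∀ w : Γ →₀ ℝ, Off N w →
    D.q y + nn w ≤ D.q (y + D.L w) := by
  obtain ⟨N, hN, h⟩ := D.q_att y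
  refine ⟨N, hN, fun w hw => ?_⟩
  apply le_csSup (D.T_bddAbove _)
  refine ⟨N ∪ (w.support : Set Γ), D.small_union hN (D.small_finset _), fun z hz => ?_⟩
  have h1 := h (w + z) (hw.add (hz.mono subset_union_left))
  have h2 : nn (w + z) = nn w + nn z := by
    apply nn_add_of_disjoint
    intro γ
    by_cases hγ : w γ = 0
    · exact Or.inl hγ
    · exact Or.inr (hz γ (Or.inr (by simpa using hγ)))
  rw [h2, map_add, ← add_assoc] at h1
  linarith

/-- rational vectors supported on a finite set -/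
noncomputable def rv (F : Finset Γ) (ρ : F → ℚ) : Γ →₀ ℝ := ∑ i : F, Finsupp.single i.1 (ρ i : ℝ)

theorem exists_rv (F : Finset Γ) (v : Γ →₀ ℝ) (hv : v.support ⊆ F) {η : ℝ} (hη : 0 < η) :
    ∃ ρ : F → ℚ, nn (v - rv F ρ) < η := by
  have h : ∀ i : F, ∃ p : ℚ, |v i.1 - p| < η / (F.card + 1) := by
    intro i
    obtain ⟨p, hp1, hp2⟩ := exists_rat_btwn (show v i.1 - η / (F.card + 1) < v i.1 by
      have : 0 < η / (F.card + 1) := by positivity
      linarith)
    refine ⟨p, ?_⟩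
    rw [abs_of_pos (by linarith)]
    linarith
  choose ρ hρ using h
  refine ⟨ρ, ?_⟩
  have e : v - rv F ρ = ∑ i : F, Finsupp.single i.1 (v i.1 - ρ i) := by
    have h1 : v = ∑ i : F, Finsupp.single i.1 (v i.1) := by
      have h2 : (∑ i : F, Finsupp.single i.1 (v i.1)) = ∑ γ ∈ F, Finsupp.single γ (v γ) :=
        Finset.sum_coe_sort F (fun γ => Finsupp.single γ (v γ))
      rw [h2]
      have h3 := Finsupp.sum_single v
      rw [Finsupp.sum_of_support_subset v hv _ (by simp)] at h3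
      exact h3.symm
    conv_lhs => rw [h1]
    unfold rv
    rw [← Finset.sum_sub_distrib]
    refine Finset.sum_congr rfl fun i _ => ?_
    rw [Finsupp.single_sub]
  rw [e]
  have h2 : ∀ s : Finset F, nn (∑ i ∈ s, Finsupp.single i.1 (v i.1 - ρ i)) ≤
      s.card * (η / (F.card + 1)) := by
    classical
    intro s
    induction s using Finset.induction_on with
    | empty => simp [nn_zero]
    | insert a s ha ih =>
      rw [Finset.sum_insert ha, Finset.card_insert_of_notMem ha]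
      refine (nn_add _ _).trans ?_
      rw [nn_single]
      push_cast
      linarith [(hρ a).le]
  refine (h2 Finset.univ).trans_lt ?_
  rw [Finset.card_univ, Fintype.card_coe, mul_div_assoc', div_lt_iff₀ (by positivity)]
  nlinarith

theorem q_sub_le (x y : X) : D.q x ≤ D.q y + D.C * ‖x - y‖ := by
  have h1 := D.q_add y (x - y)
  rw [add_sub_cancel] at h1
  linarith [D.q_le (x - y)]

/-- generic additivity, uniformly for the vectors supported on a finite set -/
theorem q_generic_finset (y : X) (F : Finset Γ) : ∃ N : Set Γ, #N ≤ D.κ ∧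
    ∀ v : Γ →₀ ℝ, v.support ⊆ F → ∀ w : Γ →₀ ℝ, Off N w →
      D.q (y - D.L v) + nn w ≤ D.q (y - D.L v + D.L w) := by
  choose N hN h using fun ρ : F → ℚ => D.q_generic (y - D.L (rv F ρ))
  refine ⟨⋃ ρ, N ρ, ?_, fun v hv w hw => ?_⟩
  · refine D.small_iUnion ?_ hN
    exact (Cardinal.mk_le_aleph0 (α := F → ℚ)).trans D.inf
  · refine le_of_forall_pos_le_add fun ε hε => ?_
    have hC := D.C_pos
    obtain ⟨ρ, hρ⟩ := exists_rv F v hv (show 0 < ε / (2 * D.C) by positivity)
    have h1 := h ρ w (hw.mono (subset_iUnion N ρ))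
    have h0 : D.C * nn (v - rv F ρ) ≤ ε / 2 := by
      have h5 := mul_le_mul_of_nonneg_left hρ.le hC.le
      have h6 : D.C * (ε / (2 * D.C)) = ε / 2 := by field_simp
      linarith
    have h2 : ‖(y - D.L v) - (y - D.L (rv F ρ))‖ ≤ nn (v - rv F ρ) := by
      have : (y - D.L v) - (y - D.L (rv F ρ)) = -D.L (v - rv F ρ) := by
        rw [map_sub]
        abel
      rw [this, norm_neg]
      exact D.upper _
    have h3 : ‖(y - D.L (rv F ρ) + D.L w) - (y - D.L v + D.L w)‖ ≤ nn (v - rv F ρ) := by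
      have : (y - D.L (rv F ρ) + D.L w) - (y - D.L v + D.L w) = D.L (v - rv F ρ) := by
        rw [map_sub]
        abel
      rw [this]
      exact D.upper _
    have h4 := D.q_sub_le (y - D.L v) (y - D.L (rv F ρ))
    have h5 := D.q_sub_le (y - D.L (rv F ρ) + D.L w) (y - D.L v + D.L w)
    have h6 := mul_le_mul_of_nonneg_left h2 hC.le
    have h7 := mul_le_mul_of_nonneg_left h3 hC.le
    linarith

/-- closing off -/
theorem exists_closed (G : Finset Γ → Set Γ) (hG : ∀ F, #(G F) ≤ D.κ) :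
    ∃ N : Set Γ, #N ≤ D.κ ∧ ∀ F : Finset Γ, (F : Set Γ) ⊆ N → G F ⊆ N := by
  let S : Set Γ → Set Γ := fun M => M ∪ ⋃ F : Finset M, G (F.map ⟨Subtype.val, Subtype.val_injective⟩)
  have hS : ∀ M : Set Γ, #M ≤ D.κ → #(S M) ≤ D.κ := by
    intro M hM
    refine D.small_union hM (D.small_iUnion ?_ fun F => hG _)
    rcases finite_or_infinite M with hf | hi
    · exact ((Cardinal.mk_lt_aleph0 (α := Finset M)).le).trans D.inf
    · rw [Cardinal.mk_finset_of_infinite]
      exact hM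
  let N : ℕ → Set Γ := fun n => S^[n] ∅
  have hN1 : ∀ n, N (n + 1) = S (N n) := fun n => Function.iterate_succ_apply' S n ∅
  have hN : ∀ n, #(N n) ≤ D.κ := by
    intro n
    induction n with
    | zero => simp [N]
    | succ n ih => rw [hN1]; exact hS _ ih
  have hmono : Monotone N := monotone_nat_of_le_succ fun n => by
    rw [hN1]
    exact subset_union_left
  refine ⟨⋃ n, N n, D.small_iUnion_countable hN, fun F hF => ?_⟩
  obtain ⟨n, hn⟩ : ∃ n, (F : Set Γ) ⊆ N n := by
    choose! f hf using fun (x : Γ) (hx : x ∈ (F : Set Γ)) => mem_iUnion.1 (hF hx)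
    exact ⟨F.sup f, fun x hx => hmono (Finset.le_sup (Finset.mem_coe.1 hx)) (hf x hx)⟩
  refine Subset.trans ?_ (subset_iUnion N (n + 1))
  rw [hN1]
  have hF' : ∃ F' : Finset (N n), F'.map ⟨Subtype.val, Subtype.val_injective⟩ = F := by
    classical
    refine ⟨F.subtype (· ∈ N n), ?_⟩
    ext x
    simp only [Finset.mem_map, Finset.mem_subtype, Function.Embedding.coeFn_mk, Subtype.exists,
      exists_and_right, exists_eq_right]
    constructor
    · rintro ⟨h1, h2⟩
      exact h2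
    · intro hx
      exact ⟨hn hx, hx⟩
  obtain ⟨F', hF'⟩ := hF'
  intro x hx
  right
  rw [mem_iUnion]
  exact ⟨F', by rw [hF']; exact hx⟩

/-- the second new norm -/
noncomputable def N1 (x : X) : ℝ := ⨅ w : Γ →₀ ℝ, (D.q (x - D.L w) + nn w)

theorem N1_bdd (x : X) : BddBelow (Set.range fun w : Γ →₀ ℝ => D.q (x - D.L w) + nn w) := by
  refine ⟨0, ?_⟩
  rintro _ ⟨w, rfl⟩
  exact add_nonneg (D.q_nonneg _) (nn_nonneg w)

theorem N1_le (x : X) (w : Γ →₀ ℝ) : D.N1 x ≤ D.q (x - D.L w) + nn w := ciInf_le (D.N1_bdd x) w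

theorem N1_le_q (x : X) : D.N1 x ≤ D.q x := by
  have := D.N1_le x 0
  simpa [nn_zero] using this

theorem norm_le_N1 (x : X) : ‖x‖ ≤ D.N1 x := by
  apply le_ciInf
  intro w
  have h1 : x = (x - D.L w) + D.L w := by abel
  have h2 := norm_add_le (x - D.L w) (D.L w)
  rw [← h1] at h2
  linarith [D.norm_le_q (x - D.L w), D.upper w]

theorem N1_approx (x : X) {η : ℝ} (hη : 0 < η) : ∃ w : Γ →₀ ℝ,
    D.q (x - D.L w) + nn w < D.N1 x + η :=
  exists_lt_of_ciInf_lt (show (⨅ w : Γ →₀ ℝ, (D.q (x - D.L w) + nn w)) < D.N1 x + η by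
    show D.N1 x < D.N1 x + η
    linarith)

theorem N1_add (x y : X) : D.N1 (x + y) ≤ D.N1 x + D.N1 y := by
  refine le_of_forall_pos_le_add fun ε hε => ?_
  obtain ⟨w, hw⟩ := D.N1_approx x (half_pos hε)
  obtain ⟨v, hv⟩ := D.N1_approx y (half_pos hε)
  have h1 := D.N1_le (x + y) (w + v)
  have h2 : x + y - D.L (w + v) = (x - D.L w) + (y - D.L v) := by
    rw [map_add]
    abel
  rw [h2] at h1
  linarith [D.q_add (x - D.L w) (y - D.L v), nn_add w v]

theorem N1_smul_le (r : ℝ) (x : X) : D.N1 (r • x) ≤ ‖r‖ * D.N1 x := by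
  have key : ∀ η : ℝ, 0 < η → D.N1 (r • x) ≤ ‖r‖ * (D.N1 x + η) := by
    intro η hη
    obtain ⟨w, hw⟩ := D.N1_approx x hη
    have h1 := D.N1_le (r • x) (r • w)
    have h2 : r • x - D.L (r • w) = r • (x - D.L w) := by
      rw [map_smul, smul_sub]
    rw [h2, nn_smul] at h1
    have h3 := D.q_smul_le r (x - D.L w)
    rw [Real.norm_eq_abs] at h3 ⊢
    have h4 := mul_le_mul_of_nonneg_left hw.le (abs_nonneg r)
    linarith [mul_add (|r|) (D.q (x - D.L w)) (nn w)]
  refine le_of_forall_pos_le_add fun ε hε => ?_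
  have h1 := key (ε / (‖r‖ + 1)) (by positivity)
  have h2 : ‖r‖ * (ε / (‖r‖ + 1)) ≤ ε := by
    rw [mul_div_assoc', div_le_iff₀ (by positivity)]
    nlinarith [norm_nonneg r]
  linarith [mul_add (‖r‖) (D.N1 x) (ε / (‖r‖ + 1))]

theorem N1_zero : D.N1 (0 : X) = 0 := by
  apply le_antisymm
  · have := D.N1_le_q (0 : X)
    rwa [D.q_zero] at this
  · exact (norm_nonneg _).trans (D.norm_le_N1 0)

/-- the equivalent norm -/
noncomputable def S1 : Seminorm ℝ X := Seminorm.ofSMulLE D.N1 D.N1_zero D.N1_add D.N1_smul_le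

theorem S1_apply (x : X) : D.S1 x = D.N1 x := rfl

/-- exact additivity for all but `κ` many unit vectors -/
theorem N1_generic (y : X) : ∃ N : Set Γ, #N ≤ D.κ ∧ ∀ γ ∉ N, ∀ r : ℝ,
    D.N1 y + |r| ≤ D.N1 (y + D.L (Finsupp.single γ r)) := by
  classical
  choose G hG h using fun F : Finset Γ => D.q_generic_finset y F
  obtain ⟨N, hN, hcl⟩ := D.exists_closed G hG
  refine ⟨N, hN, fun γ hγ r => ?_⟩
  apply le_ciInf
  intro w
  set v : Γ →₀ ℝ := w.filter (· ∈ N) with hv
  set u : Γ →₀ ℝ := w.filter (fun x => ¬ (x ∈ N)) with hu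
  have hvu : v + u = w := Finsupp.filter_add_filter_not w _
  have hvN : (v.support : Set Γ) ⊆ N := by
    intro x hx
    have hx' : x ∈ v.support := hx
    rw [hv, Finsupp.support_filter, Finset.mem_filter] at hx'
    exact hx'.2
  have huN : Off N u := by
    intro x hx
    rw [hu]
    exact Finsupp.filter_apply_neg _ _ (by simpa using hx)
  have hnw : nn w = nn v + nn u := by
    rw [← hvu]
    apply nn_add_of_disjoint
    intro x
    by_cases hx : x ∈ N
    · exact Or.inr (huN x hx)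
    · left
      rw [hv]
      exact Finsupp.filter_apply_neg _ _ hx
  set s : Γ →₀ ℝ := Finsupp.single γ r - u with hs
  have hsN : Off N s := by
    intro x hx
    have hxγ : γ ≠ x := by
      rintro rfl
      exact hγ hx
    rw [hs, Finsupp.sub_apply, huN x hx, Finsupp.single_eq_of_ne' hxγ, sub_zero]
  have h1 := h v.support v subset_rfl s (hsN.mono (hcl _ hvN))
  have h2 : y - D.L v + D.L s = y + D.L (Finsupp.single γ r) - D.L w := by
    rw [hs, ← hvu, map_sub, map_add]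
    abel
  rw [h2] at h1
  have h3 : |r| ≤ nn s + nn u := by
    have h4 := nn_add s u
    have h5 : s + u = Finsupp.single γ r := by
      rw [hs]
      abel
    rw [h5, nn_single] at h4
    exact h4
  have h6 := D.N1_le y v
  rw [hnw]
  linarith

theorem N1_single_le (γ : Γ) (r : ℝ) : D.N1 (D.L (Finsupp.single γ r)) ≤ |r| := by
  have h := D.N1_le (D.L (Finsupp.single γ r)) (Finsupp.single γ r)
  rw [sub_self, D.q_zero, nn_single, zero_add] at h
  exact h

theorem main (hΓ : D.κ < #Γ) (A : Set X) (hA : #A ≤ D.κ) :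
    ∃ x : X, D.S1 x = 1 ∧ ∀ a ∈ A, ∀ r : ℝ, D.S1 (a + r • x) = D.S1 a + |r| := by
  choose N hN h using D.N1_generic
  have h1 : #(N 0 ∪ ⋃ a : A, N a : Set Γ) ≤ D.κ :=
    D.small_union (hN 0) (D.small_iUnion hA fun a => hN a)
  obtain ⟨γ, hγ⟩ : ∃ γ, γ ∉ (N 0 ∪ ⋃ a : A, N a : Set Γ) := by
    by_contra hcon
    push Not at hcon
    have h2 : (N 0 ∪ ⋃ a : A, N a : Set Γ) = Set.univ := Set.eq_univ_of_forall hcon
    rw [h2, Cardinal.mk_univ] at h1
    exact absurd h1 (not_le.2 hΓ)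
  have hγ0 : γ ∉ N 0 := fun h => hγ (Or.inl h)
  have hγA : ∀ a ∈ A, γ ∉ N a := fun a ha h => hγ (Or.inr (mem_iUnion.2 ⟨⟨a, ha⟩, h⟩))
  refine ⟨D.L (Finsupp.single γ 1), ?_, fun a ha r => ?_⟩
  · rw [S1_apply]
    apply le_antisymm
    · have := D.N1_single_le γ 1
      rwa [abs_one] at this
    · have := h 0 γ hγ0 1
      rw [D.N1_zero, abs_one, zero_add, zero_add] at this
      exact this
  · have e : r • D.L (Finsupp.single γ 1) = D.L (Finsupp.single γ r) := by
      rw [← map_smul, Finsupp.smul_single, smul_eq_mul, mul_one]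
    rw [S1_apply, S1_apply, e]
    apply le_antisymm
    · exact (D.N1_add _ _).trans (by linarith [D.N1_single_le γ r])
    · exact h a γ (hγA a ha) r

end Dat

end main

/-- The renorming. -/
theorem exists_norm (κ : Cardinal.{u}) (hκ : ℵ₀ ≤ κ) (X : Type u) [NormedAddCommGroup X]
    [NormedSpace ℝ X] [CompleteSpace X] (Γ : Type u) (hΓ : #Γ = Order.succ κ)
    (T : lp (fun _ : Γ => ℝ) 1 →L[ℝ] X) (c : ℝ) (hc : 0 < c) (hT : ∀ z, c * ‖z‖ ≤ ‖T z‖) :
    ∃ N : Seminorm ℝ X, (∃ a b : ℝ, 0 < a ∧ 0 < b ∧ ∀ x, a * ‖x‖ ≤ N x ∧ N x ≤ b * ‖x‖) ∧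
      ∀ A : Set X, #A ≤ κ → ∃ x : X, N x = 1 ∧ ∀ a ∈ A, ∀ r : ℝ, N (a + r • x) = N a + |r| := by
  classical
  -- the linear map on finitely supported vectors
  let e : Γ → lp (fun _ : Γ => ℝ) 1 := fun γ => lp.single 1 γ 1
  let L0 : (Γ →₀ ℝ) →ₗ[ℝ] lp (fun _ : Γ => ℝ) 1 := Finsupp.linearCombination ℝ e
  have hL0 : ∀ z : Γ →₀ ℝ, ∀ γ, (L0 z : Γ → ℝ) γ = z γ := by
    intro z γ
    induction z using Finsupp.induction_linear with
    | zero => simp
    | add f g hf hg => rw [map_add, lp.coeFn_add, Pi.add_apply, hf, hg]; rfl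
    | single a b =>
      simp only [L0, e, Finsupp.linearCombination_single, lp.coeFn_smul, Pi.smul_apply,
        smul_eq_mul]
      by_cases h : a = γ
      · subst h
        simp
      · rw [Finsupp.single_eq_of_ne' h]
        rw [lp.single_apply_ne _ _ _ (Ne.symm h), mul_zero]
  have hn : ∀ z : Γ →₀ ℝ, ‖L0 z‖ = nn z := by
    intro z
    rw [lp.norm_eq_tsum_rpow (by norm_num : 0 < (1 : ENNReal).toReal)]
    simp only [ENNReal.toReal_one, Real.rpow_one, div_one]
    rw [tsum_eq_sum (s := z.support)]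
    · rw [nn_eq z subset_rfl]
      refine Finset.sum_congr rfl fun γ _ => ?_
      rw [hL0, Real.norm_eq_abs]
    · intro γ hγ
      rw [hL0, Finsupp.notMem_support_iff.1 hγ, norm_zero]
  have hM : 0 < ‖T‖ + 1 := by positivity
  let D : Dat X Γ :=
    { L := (‖T‖ + 1)⁻¹ • (T.toLinearMap.comp L0)
      c := (‖T‖ + 1)⁻¹ * c
      c_pos := by positivity
      lower := by
        intro z
        have h1 := hT (L0 z)
        rw [hn] at h1
        rw [LinearMap.smul_apply, norm_smul, Real.norm_eq_abs, abs_of_pos (by positivity), mul_assoc]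
        exact mul_le_mul_of_nonneg_left h1 (by positivity)
      upper := by
        intro z
        have h1 := T.le_opNorm (L0 z)
        rw [hn] at h1
        rw [LinearMap.smul_apply, norm_smul, Real.norm_eq_abs, abs_of_pos (by positivity),
          inv_mul_le_iff₀ hM]
        refine h1.trans ?_
        nlinarith [nn_nonneg z]
      κ := κ
      inf := hκ }
  have hlt : D.κ < #Γ := by
    rw [hΓ]
    exact Order.lt_succ κ
  have hmain := D.main hlt
  refine ⟨D.S1, ⟨1, D.C, one_pos, D.C_pos, fun x => ⟨?_, ?_⟩⟩, hmain⟩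
  · rw [one_mul]
    exact D.norm_le_N1 x
  · exact (D.N1_le_q x).trans (D.q_le x)

end Pool.Agent.H67Q.RenormBCP
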