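import Pool.Agent.H67Q.RenormBCP

/-!
# MP_458f19_an, Q1: renorming to fail the `(-1)`-ball-covering property

Let `κ` be an infinite cardinal and let the Banach space `X` contain an isomorphic copy of
`ℓ₁(κ⁺)`.  Then `X` has an equivalent norm that fails the `(-1)`-BCP for `κ`.
The proof is in `Pool/Agent/H67Q/RenormBCP.lean`.
Not a hand-in: the result is in a published paper of Aviles, Martinez-Cervantes and Rueda Zoca (2021).
-/

set_option autoImplicit false

open Cardinal Set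

namespace Pool.Agent.H67Q.RenormFailsBCPKnown

universe u

/-- `(X, N)` has the `α`-ball-covering property for the cardinal `κ`. -/
def HasBCP {X : Type u} [AddCommGroup X] [Module ℝ X] (N : Seminorm ℝ X) (α : ℝ)
    (κ : Cardinal.{u}) : Prop :=
  ∃ A : Set X, #A = κ ∧ {x : X | N x = 1} ⊆ ⋃ a ∈ A, {x : X | N (x - a) < N a - α}

/-- **Q1, in the affirmative.** Let `κ` be an infinite cardinal and `X` a Banach space which contains
an isomorphic copy of `ℓ₁(κ⁺)`: `T` is a bounded linear map from `ℓ₁(Γ)` to `X`, where `Γ` has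
cardinality `κ⁺`, and `c ‖z‖ ≤ ‖T z‖` for some `c > 0`. Then there is an equivalent norm `N` on `X`
such that `(X, N)` fails the `(-1)`-ball-covering property for `κ`. Moreover, for every subset `A` of
`X` of cardinality at most `κ` there is `x` with `N x = 1` and `N (a + r x) = N a + |r|` for all
`a ∈ A` and all real `r`. -/
theorem result (κ : Cardinal.{u}) (hκ : ℵ₀ ≤ κ) (X : Type u) [NormedAddCommGroup X]
    [NormedSpace ℝ X] [CompleteSpace X] (Γ : Type u) (hΓ : #Γ = Order.succ κ)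
    (T : lp (fun _ : Γ => ℝ) 1 →L[ℝ] X) (c : ℝ) (hc : 0 < c) (hT : ∀ z, c * ‖z‖ ≤ ‖T z‖) :
    ∃ N : Seminorm ℝ X, (∃ a b : ℝ, 0 < a ∧ 0 < b ∧ ∀ x, a * ‖x‖ ≤ N x ∧ N x ≤ b * ‖x‖) ∧
      ¬ HasBCP N (-1) κ ∧
      ∀ A : Set X, #A ≤ κ → ∃ x : X, N x = 1 ∧ ∀ a ∈ A, ∀ r : ℝ, N (a + r • x) = N a + |r| := by
  obtain ⟨N, hN, hmain⟩ := Pool.Agent.H67Q.RenormBCP.exists_norm κ hκ X Γ hΓ T c hc hT
  refine ⟨N, hN, ?_, hmain⟩
  rintro ⟨A, hA, hcov⟩
  obtain ⟨x, hx, hxA⟩ := hmain A hA.le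
  have h1 := hcov (show x ∈ {x : X | N x = 1} from hx)
  simp only [Set.mem_iUnion] at h1
  obtain ⟨a, ha, h2⟩ := h1
  have h3 : N (x - a) < N a - (-1) := h2
  have h4 := hxA a ha (-1)
  have h5 : a + (-1 : ℝ) • x = -(x - a) := by
    rw [neg_one_smul]
    abel
  rw [h5, map_neg_eq_map, abs_neg, abs_one] at h4
  linarith

end Pool.Agent.H67Q.RenormFailsBCPKnown
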