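import Mathlib

/-!
Numerical data for the truthful-in-expectation scheduling mechanism on two machines.
`nodeA j / 10^7` is the value of the piecewise linear allocation curve at `1 + j/60`.
-/

namespace H67Q.Sched

/-- Node values (scaled by `10^7`). -/
def listA : List ℕ := [
  5000000, 4924817, 4850174, 4776009, 4702300, 4629026, 4556167, 4483706, 4411623, 4339907,
  4268537, 4197501, 4126787, 4056378, 3986264, 3916435, 3846876, 3777578, 3708535, 3639732,
  3571160, 3502818, 3434691, 3366771, 3299052, 3231531, 3164197, 3097042, 3030062, 2963256,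
  2896612, 2830125, 2763790, 2697608, 2631569, 2565669, 2499902, 2434265, 2368760, 2303378,
  2238115, 2172966, 2107929, 2043002, 1978185, 1913471, 1848856, 1784337, 1719912, 1655580,
  1591343, 1527192, 1463125, 1399140, 1335234, 1271407, 1207657, 1143986, 1080388, 1016859,
  953399, 890005, 826676, 763411, 700212, 637076, 574000, 510982, 448019, 385112, 322259,
  259458, 196708, 134012, 71369, 8774, 0]

/-- Upper bounds (scaled by `10^7`) for `sup_s x(s) (s - 1 - v)` at `v = 1 + i/60`. -/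
def listB : List ℕ := [
  59943, 52274, 45133, 38517, 32427, 26861, 21820, 17303, 13311, 9842, 6896, 4474, 2574, 1196,
  341, 38, 1, 1, 1, 1, 1, 1, 1, 1, 1, 1, 1, 1, 1, 1, 1, 1, 1, 1, 1, 1, 1, 1, 1, 1, 1, 1, 1, 1,
  1, 1, 1, 1, 1, 1, 1, 1, 1, 1, 1, 1, 1, 1, 1, 1, 1, 1, 1, 1, 1, 1, 1, 1, 1, 1, 1, 1, 1, 1, 1,
  1, 1]

def nodeA (j : ℕ) : ℕ := listA.getD j 0
def nodeB (j : ℕ) : ℕ := listB.getD j 0

/-- Nonnegativity test of `A0 (1-θ)^2 + B1 θ (1-θ) + A2 θ^2` on `[0,1]`. -/
def quadOK (A0 B1 A2 : ℤ) : Bool :=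
  decide (0 ≤ A0) && decide (0 ≤ A2) && (decide (0 ≤ B1) || decide (B1 * B1 ≤ 4 * (A0 * A2)))

/-- product test: `((1-θ) a + θ a') ((1-θ) w + θ w') ≤ C` on `[0,1]`. -/
def prodOK (a a' w w' C : ℤ) : Bool :=
  quadOK (C - a * w) (2 * C - a * w' - a' * w) (C - a' * w')

/-- `506/1000 * 10^7 * 60` -/
def kD : ℤ := 303600000

def chk1 : Bool := (List.range 77).all fun i => (List.range 76).all fun j =>
  prodOK (nodeA j) (nodeA (j+1)) ((60 + i : ℤ) * j - 3600) ((60 + i : ℤ) * (j + 1) - 3600)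
    (3600 * nodeA i - 36000000000 + kD * (60 + i))

def chk2 : Bool := (List.range 76).all fun j =>
  prodOK (nodeA j) (nodeA (j+1)) (j : ℤ) ((j : ℤ) + 1) kD

def chk3 : Bool := (List.range 77).all fun i => (List.range 76).all fun j =>
  prodOK (nodeA j) (nodeA (j+1)) ((j : ℤ) - 60 - i) ((j : ℤ) + 1 - 60 - i) (60 * nodeB i)

def chk4 : Bool := (List.range 76).all fun i =>
  quadOK (kD - (60 + i : ℤ) * nodeA i - 60 * nodeB i)
    (2 * kD - (60 + i : ℤ) * nodeA (i+1) - (60 + i + 1 : ℤ) * nodeA i - 60 * nodeB i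
      - 60 * nodeB (i+1))
    (kD - (60 + i + 1 : ℤ) * nodeA (i+1) - 60 * nodeB (i+1))

def chk5 : Bool := (List.range 77).all fun i => decide (nodeA (i+1) ≤ nodeA i)

theorem chk1_true : chk1 = true := by decide +kernel
theorem chk2_true : chk2 = true := by decide +kernel
theorem chk3_true : chk3 = true := by decide +kernel
theorem chk4_true : chk4 = true := by decide +kernel
theorem chk5_true : chk5 = true := by decide +kernel

end H67Q.Sched
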