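import Mathlib
import Pool.Agent.H67Q.SchedData

/-!
The piecewise linear allocation curve and its two key inequalities.
-/

namespace H67Q.Sched

open scoped BigOperators

lemma quad_nonneg {A0 B1 A2 : ℤ} (h : quadOK A0 B1 A2 = true) {θ : ℝ} (h0 : 0 ≤ θ)
    (h1 : θ ≤ 1) :
    0 ≤ (A0 : ℝ) * (1 - θ) ^ 2 + B1 * (θ * (1 - θ)) + A2 * θ ^ 2 := by
  simp only [quadOK, Bool.and_eq_true, Bool.or_eq_true, decide_eq_true_eq] at h
  obtain ⟨⟨hA0, hA2⟩, hB⟩ := h
  have hA0' : (0 : ℝ) ≤ A0 := by exact_mod_cast hA0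
  have hA2' : (0 : ℝ) ≤ A2 := by exact_mod_cast hA2
  have h1' : 0 ≤ 1 - θ := by linarith
  rcases hB with hB | hB
  · have hB' : (0 : ℝ) ≤ B1 := by exact_mod_cast hB
    positivity
  · have hB' : (B1 : ℝ) * B1 ≤ 4 * (A0 * A2) := by exact_mod_cast hB
    rcases hA0'.eq_or_lt with h00 | h00
    · have : (B1 : ℝ) * B1 ≤ 0 := by rw [← h00] at hB'; simpa using hB'
      have hb0 : (B1 : ℝ) = 0 := by nlinarith [mul_self_nonneg (B1 : ℝ)]
      rw [← h00, hb0]
      simp only [zero_mul, zero_add]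
      positivity
    · have key : 0 ≤ 4 * (A0 : ℝ) * ((A0 : ℝ) * (1 - θ) ^ 2 + B1 * (θ * (1 - θ)) + A2 * θ ^ 2) := by
        have : 4 * (A0 : ℝ) * ((A0 : ℝ) * (1 - θ) ^ 2 + B1 * (θ * (1 - θ)) + A2 * θ ^ 2)
            = (2 * A0 * (1 - θ) + B1 * θ) ^ 2 + (4 * (A0 * A2) - B1 * B1) * θ ^ 2 := by ring
        rw [this]
        have h2 : 0 ≤ 4 * ((A0 : ℝ) * A2) - B1 * B1 := by linarith
        positivity
      have h4 : 0 < 4 * (A0 : ℝ) := by positivity
      by_contra hneg
      push Not at hneg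
      have := mul_neg_of_pos_of_neg h4 hneg
      linarith

lemma prod_le {a a' w w' C : ℤ} (h : prodOK a a' w w' C = true) {θ : ℝ} (h0 : 0 ≤ θ)
    (h1 : θ ≤ 1) :
    ((1 - θ) * a + θ * a') * ((1 - θ) * w + θ * w') ≤ (C : ℝ) := by
  have := quad_nonneg h h0 h1
  push_cast at this
  nlinarith [this]

/-- The allocation curve: `xf s` for `s ≥ 1` is the probability that a job goes to the machine
that is `s` times slower on it. -/
noncomputable def xf (s : ℝ) : ℝ :=
  ((1 - ((s - 1) * 60 - ⌊(s - 1) * 60⌋₊)) * nodeA ⌊(s - 1) * 60⌋₊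
    + ((s - 1) * 60 - ⌊(s - 1) * 60⌋₊) * nodeA (⌊(s - 1) * 60⌋₊ + 1)) / 10000000

lemma exists_cell {s : ℝ} (hs : 1 ≤ s) : ∃ (j : ℕ) (θ : ℝ), 0 ≤ θ ∧ θ < 1 ∧
    s = 1 + (j + θ) / 60 ∧
    xf s = ((1 - θ) * nodeA j + θ * nodeA (j+1)) / 10000000 := by
  refine ⟨⌊(s - 1) * 60⌋₊, (s - 1) * 60 - ⌊(s - 1) * 60⌋₊, ?_, ?_, ?_, rfl⟩
  · have := Nat.floor_le (show 0 ≤ (s - 1) * 60 by nlinarith)
    linarith
  · have := Nat.lt_floor_add_one ((s - 1) * 60)
    linarith
  · ring

lemma nodeA_zero_of_le {j : ℕ} (hj : 76 ≤ j) : nodeA j = 0 := by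
  rcases eq_or_lt_of_le hj with h | h
  · subst h; rfl
  · unfold nodeA
    rw [List.getD_eq_default]
    have : listA.length = 77 := rfl
    omega

lemma nodeA_succ_le (j : ℕ) : nodeA (j+1) ≤ nodeA j := by
  by_cases hj : j < 77
  · have h := chk5_true
    unfold chk5 at h
    rw [List.all_eq_true] at h
    have := h j (List.mem_range.mpr hj)
    simpa using this
  · rw [nodeA_zero_of_le (show 76 ≤ j + 1 by omega)]
    exact Nat.zero_le _

lemma nodeA_antitone : Antitone nodeA := antitone_nat_of_succ_le nodeA_succ_le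

lemma nodeA_zero : nodeA 0 = 5000000 := rfl

lemma xf_one : xf 1 = 1 / 2 := by
  unfold xf
  norm_num [nodeA_zero]

lemma xf_nonneg {s : ℝ} (hs : 1 ≤ s) : 0 ≤ xf s := by
  obtain ⟨j, θ, h0, h1, -, hx⟩ := exists_cell hs
  rw [hx]
  have : 0 ≤ 1 - θ := by linarith
  positivity

lemma xf_anti {s s' : ℝ} (hs : 1 ≤ s) (hss : s ≤ s') : xf s' ≤ xf s := by
  obtain ⟨j, θ, h0, h1, hs1, hx⟩ := exists_cell hs
  obtain ⟨j', θ', h0', h1', hs1', hx'⟩ := exists_cell (hs.trans hss)
  rw [hx, hx']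
  have hA : (nodeA (j+1) : ℝ) ≤ nodeA j := by exact_mod_cast nodeA_succ_le j
  have hA' : (nodeA (j'+1) : ℝ) ≤ nodeA j' := by exact_mod_cast nodeA_succ_le j'
  have hle : (j : ℝ) + θ ≤ j' + θ' := by rw [hs1, hs1'] at hss; linarith
  have hjj : j ≤ j' := by
    by_contra hcon
    push Not at hcon
    have : (j' : ℝ) + 1 ≤ j := by exact_mod_cast hcon
    linarith
  apply div_le_div_of_nonneg_right _ (by norm_num)
  rcases hjj.eq_or_lt with h | h
  · subst h
    nlinarith
  · have h2 : (nodeA j' : ℝ) ≤ nodeA (j+1) := by exact_mod_cast nodeA_antitone h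
    nlinarith

lemma xf_le_half {s : ℝ} (hs : 1 ≤ s) : xf s ≤ 1 / 2 := by
  rw [← xf_one]; exact xf_anti le_rfl hs

lemma xf_eq_zero {s : ℝ} (hs : 3 ≤ s) : xf s = 0 := by
  obtain ⟨j, θ, h0, h1, hs1, hx⟩ := exists_cell (show 1 ≤ s by linarith)
  have : (76 : ℝ) ≤ j := by
    by_contra hcon
    push Not at hcon
    have : (j : ℝ) < 76 := hcon
    have hj : j < 76 := by exact_mod_cast this
    have hj' : (j : ℝ) ≤ 75 := by exact_mod_cast (show j ≤ 75 by omega)
    rw [hs1] at hs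
    have : (j + θ) / 60 < 2 := by
      rw [div_lt_iff₀ (by norm_num)]; linarith
    linarith
  have hj : 76 ≤ j := by exact_mod_cast this
  rw [hx, nodeA_zero_of_le hj, nodeA_zero_of_le (by omega)]
  simp

/-- slope bound: `x(s) (s-1) ≤ 0.506`. -/
lemma xf_slope {s : ℝ} (hs : 1 ≤ s) : xf s * (s - 1) ≤ 506 / 1000 := by
  obtain ⟨j, θ, h0, h1, hs1, hx⟩ := exists_cell hs
  by_cases hj : j < 76
  · have h := chk2_true
    unfold chk2 at h
    rw [List.all_eq_true] at h
    have h2 := prod_le (h j (List.mem_range.mpr hj)) h0 h1.le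
    rw [hx]
    have e : s - 1 = (j + θ) / 60 := by rw [hs1]; ring
    rw [e]
    simp only [kD] at h2
    push_cast at h2
    have e2 : ((1 - θ) * (nodeA j : ℝ) + θ * nodeA (j+1)) / 10000000 * ((j + θ) / 60)
      = (((1 - θ) * (nodeA j : ℝ) + θ * nodeA (j+1)) * ((1 - θ) * j + θ * (j + 1))) / 600000000 := by
      ring
    rw [e2, div_le_iff₀ (by norm_num)]
    linarith
  · rw [hx, nodeA_zero_of_le (by omega), nodeA_zero_of_le (by omega)]
    simp only [Nat.cast_zero, mul_zero, add_zero, zero_div, zero_mul]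
    norm_num

/-- node version of inequality (i). -/
lemma key1_node {i : ℕ} (hi : i ≤ 76) {s : ℝ} (hs : 1 ≤ s) :
    xf s * ((1 + i / 60 : ℝ) * (s - 1) - 1) ≤
      nodeA i / 10000000 - 1 + 506 / 1000 * (1 + i / 60 : ℝ) := by
  obtain ⟨j, θ, h0, h1, hs1, hx⟩ := exists_cell hs
  have h := chk1_true
  unfold chk1 at h
  rw [List.all_eq_true] at h
  have hh := h i (List.mem_range.mpr (by omega))
  rw [List.all_eq_true] at hh
  by_cases hj : j < 76
  · have h2 := prod_le (hh j (List.mem_range.mpr hj)) h0 h1.le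
    rw [hx]
    have e : s - 1 = (j + θ) / 60 := by rw [hs1]; ring
    rw [e]
    simp only [kD] at h2
    push_cast at h2
    have e2 : ((1 - θ) * (nodeA j : ℝ) + θ * nodeA (j+1)) / 10000000 *
        ((1 + i / 60 : ℝ) * ((j + θ) / 60) - 1)
      = (((1 - θ) * (nodeA j : ℝ) + θ * nodeA (j+1)) *
          ((1 - θ) * ((60 + i) * j - 3600) + θ * ((60 + i) * (j + 1) - 3600))) / 36000000000 := by
      ring
    rw [e2, div_le_iff₀ (by norm_num)]
    push_cast
    linarith
  · have h2 := prod_le (hh 0 (List.mem_range.mpr (by norm_num))) (θ := 0) le_rfl zero_le_one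
    have h3 := hh 75 (List.mem_range.mpr (by norm_num))
    have h4 := prod_le h3 (θ := 1) zero_le_one le_rfl
    rw [hx, nodeA_zero_of_le (by omega), nodeA_zero_of_le (by omega)]
    have h76 : nodeA (75+1) = 0 := rfl
    rw [h76] at h4
    simp only [kD] at h4
    push_cast at h4
    simp only [Nat.cast_zero, mul_zero, add_zero, zero_div, zero_mul]
    linarith

/-- inequality (i): `x(s) (u (s-1) - 1) ≤ x(u) - 1 + κ u`. -/
lemma key1 {u s : ℝ} (hu : 1 ≤ u) (hs : 1 ≤ s) :
    xf s * (u * (s - 1) - 1) ≤ xf u - 1 + 506 / 1000 * u := by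
  obtain ⟨i, η, h0, h1, hu1, hxu⟩ := exists_cell hu
  by_cases hi : i < 76
  · have n0 := key1_node (i := i) (by omega) hs
    have n1 := key1_node (i := i + 1) (by omega) hs
    rw [hxu, hu1]
    push_cast at n1
    nlinarith [mul_le_mul_of_nonneg_left n0 (show 0 ≤ 1 - η by linarith),
      mul_le_mul_of_nonneg_left n1 h0]
  · have n0 := key1_node (i := 76) le_rfl hs
    have hz : nodeA 76 = 0 := nodeA_zero_of_le le_rfl
    rw [hz] at n0
    have hxu0 : 0 ≤ xf u := xf_nonneg hu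
    have hsl := xf_slope hs
    have hu2 : (1 + (76 : ℕ) / 60 : ℝ) ≤ u := by
      rw [hu1]
      have : (76 : ℝ) ≤ i := by exact_mod_cast (not_lt.mp hi)
      push_cast
      have h60 : (76 : ℝ) / 60 ≤ (i + η) / 60 := by
        apply div_le_div_of_nonneg_right _ (by norm_num); linarith
      linarith
    have h3 := mul_le_mul_of_nonneg_left hsl (sub_nonneg.mpr hu2)
    push_cast at *
    nlinarith

/-- the second family of node inequalities. -/
lemma key2_node {i : ℕ} (hi : i ≤ 76) {s : ℝ} (hs : 1 ≤ s) :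
    xf s * (s - 1 - (1 + i / 60 : ℝ)) ≤ nodeB i / 10000000 := by
  obtain ⟨j, θ, h0, h1, hs1, hx⟩ := exists_cell hs
  by_cases hj : j < 76
  · have h := chk3_true
    unfold chk3 at h
    rw [List.all_eq_true] at h
    have hh := h i (List.mem_range.mpr (by omega))
    rw [List.all_eq_true] at hh
    have h2 := prod_le (hh j (List.mem_range.mpr hj)) h0 h1.le
    rw [hx]
    have e : s - 1 = (j + θ) / 60 := by rw [hs1]; ring
    rw [e]
    push_cast at h2
    have e2 : ((1 - θ) * (nodeA j : ℝ) + θ * nodeA (j+1)) / 10000000 *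
        ((j + θ) / 60 - (1 + i / 60 : ℝ))
      = (((1 - θ) * (nodeA j : ℝ) + θ * nodeA (j+1)) *
          ((1 - θ) * (j - 60 - i) + θ * (j + 1 - 60 - i))) / 600000000 := by
      ring
    rw [e2, div_le_iff₀ (by norm_num)]
    linarith
  · rw [hx, nodeA_zero_of_le (by omega), nodeA_zero_of_le (by omega)]
    simp only [Nat.cast_zero, mul_zero, add_zero, zero_div, zero_mul]
    positivity

/-- inequality (ii): `x(s) (s-1-v) + v x(v) ≤ κ` for `v ≥ 1`. -/
lemma key2 {v s : ℝ} (hv : 1 ≤ v) (hs : 1 ≤ s) :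
    xf s * (s - 1 - v) + v * xf v ≤ 506 / 1000 := by
  obtain ⟨i, η, h0, h1, hv1, hxv⟩ := exists_cell hv
  by_cases hi : i < 76
  · have n0 := key2_node (i := i) (by omega) hs
    have n1 := key2_node (i := i + 1) (by omega) hs
    have h := chk4_true
    unfold chk4 at h
    rw [List.all_eq_true] at h
    have h2 := quad_nonneg (h i (List.mem_range.mpr hi)) h0 h1.le
    simp only [kD] at h2
    push_cast at h2 n1
    have m0 := mul_le_mul_of_nonneg_left n0 (show 0 ≤ 1 - η by linarith)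
    have m1 := mul_le_mul_of_nonneg_left n1 h0
    have e1 : xf s * (s - 1 - v) = (1 - η) * (xf s * (s - 1 - (1 + i / 60 : ℝ)))
        + η * (xf s * (s - 1 - (1 + (i + 1) / 60 : ℝ))) := by rw [hv1]; ring
    rw [e1]
    have e2 : v * xf v = ((1 - η) * (60 + i) + η * (60 + i + 1)) *
        ((1 - η) * nodeA i + η * nodeA (i+1)) / 600000000 := by
      rw [hxv, hv1]; ring
    rw [e2]
    have e3 : (506 / 1000 : ℝ) = 303600000 / 600000000 := by norm_num
    rw [e3]
    have : (1 - η) * (nodeB i / 10000000 : ℝ) + η * (nodeB (i+1) / 10000000 : ℝ)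
        = (60 * ((1 - η) * nodeB i + η * nodeB (i+1))) / 600000000 := by ring
    have h5 : ((1 - η) * (60 + i) + η * (60 + i + 1)) *
        ((1 - η) * (nodeA i : ℝ) + η * nodeA (i+1)) + 60 * ((1 - η) * nodeB i + η * nodeB (i+1))
        ≤ 303600000 := by
      nlinarith [h2]
    calc _ ≤ (1 - η) * (nodeB i / 10000000 : ℝ) + η * (nodeB (i+1) / 10000000 : ℝ)
          + ((1 - η) * (60 + i) + η * (60 + i + 1)) *
        ((1 - η) * nodeA i + η * nodeA (i+1)) / 600000000 := by linarith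
      _ = (((1 - η) * (60 + i) + η * (60 + i + 1)) *
        ((1 - η) * (nodeA i : ℝ) + η * nodeA (i+1)) + 60 * ((1 - η) * nodeB i + η * nodeB (i+1)))
          / 600000000 := by rw [this]; ring
      _ ≤ _ := by
        apply div_le_div_of_nonneg_right h5 (by norm_num)
  · have hxv0 : xf v = 0 := by
      rw [hxv, nodeA_zero_of_le (by omega), nodeA_zero_of_le (by omega)]; simp
    rw [hxv0]
    have hsl := xf_slope hs
    have := xf_nonneg hs
    nlinarith

end H67Q.Sched
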