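import Mathlib
import Pool.Agent.H67Q.SchedCurve

/-!
The move probability `mv o c` (own cost `o`, other cost `c`) and the pair inequality.
-/

namespace H67Q.Sched

open scoped BigOperators

/-- `Q s`: probability of leaving the machine on which a job has cost `1` for the machine on which
it has cost `s > 0`. -/
noncomputable def Q (s : ℝ) : ℝ := if s < 1 then 1 - xf (1 / s) else xf s

lemma Q_anti {s s' : ℝ} (hs : 0 < s) (hss : s ≤ s') : Q s' ≤ Q s := by
  unfold Q
  have hs' : 0 < s' := lt_of_lt_of_le hs hss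
  by_cases h1 : s < 1
  · have e1 : 1 ≤ 1 / s := by rw [le_div_iff₀ hs]; linarith
    by_cases h2 : s' < 1
    · have e2 : 1 ≤ 1 / s' := by rw [le_div_iff₀ hs']; linarith
      rw [if_pos h1, if_pos h2]
      have := xf_anti e2 (one_div_le_one_div_of_le hs hss)
      linarith
    · rw [if_pos h1, if_neg h2]
      have a := xf_le_half e1
      have b := xf_le_half (not_lt.mp h2)
      linarith
  · have h2 : ¬ s' < 1 := by push Not at h1 ⊢; linarith
    rw [if_neg h1, if_neg h2]
    exact xf_anti (not_lt.mp h1) hss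

lemma Q_nonneg {s : ℝ} (hs : 0 < s) : 0 ≤ Q s := by
  unfold Q
  by_cases h1 : s < 1
  · have e1 : 1 ≤ 1 / s := by rw [le_div_iff₀ hs]; linarith
    rw [if_pos h1]
    have := xf_le_half e1
    linarith
  · rw [if_neg h1]; exact xf_nonneg (not_lt.mp h1)

lemma Q_le_one {s : ℝ} (hs : 0 < s) : Q s ≤ 1 := by
  unfold Q
  by_cases h1 : s < 1
  · have e1 : 1 ≤ 1 / s := by rw [le_div_iff₀ hs]; linarith
    rw [if_pos h1]
    have := xf_nonneg e1
    linarith
  · rw [if_neg h1]
    have := xf_le_half (not_lt.mp h1)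
    linarith

lemma Q_add {s : ℝ} (hs : 0 < s) : Q s + Q (1 / s) = 1 := by
  unfold Q
  rcases lt_trichotomy s 1 with h | h | h
  · have e1 : 1 < 1 / s := by rw [lt_div_iff₀ hs]; linarith
    rw [if_pos h, if_neg (not_lt.mpr e1.le)]; ring
  · subst h
    norm_num [xf_one]
  · have e1 : 1 / s < 1 := by rw [div_lt_iff₀ hs]; linarith
    rw [if_neg (not_lt.mpr h.le), if_pos e1, one_div_one_div]; ring

lemma Q_slope {s : ℝ} (hs : 0 < s) : Q s * (s - 1) ≤ 506 / 1000 := by
  by_cases h1 : s < 1
  · have := Q_nonneg hs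
    nlinarith
  · have h1' := not_lt.mp h1
    have := xf_slope h1'
    unfold Q
    rw [if_neg h1]; exact this

/-- the pair inequality in ratio form -/
lemma Q_pair {s' s : ℝ} (hs' : 0 < s') (hss : s' ≤ s) :
    Q s * (s - 1 - s') + s' * Q s' ≤ 506 / 1000 := by
  have hs : 0 < s := lt_of_lt_of_le hs' hss
  by_cases h1 : s' < 1
  · have e1 : 1 ≤ 1 / s' := by rw [le_div_iff₀ hs']; linarith
    have hQ' : Q s' = 1 - xf (1 / s') := by unfold Q; rw [if_pos h1]
    by_cases h2 : s < 1
    · have hQ := Q_nonneg hs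
      have k := key1 (s := 3) e1 (by norm_num)
      rw [xf_eq_zero le_rfl] at k
      have k2 := mul_le_mul_of_nonneg_left k hs'.le
      have e : s' * (xf (1 / s') - 1 + 506 / 1000 * (1 / s')) = 506 / 1000 - s' * (1 - xf (1/s')) := by
        field_simp; ring
      rw [e] at k2
      rw [hQ']
      have : Q s * (s - 1 - s') ≤ 0 := by
        apply mul_nonpos_of_nonneg_of_nonpos hQ; linarith
      linarith
    · have h2' := not_lt.mp h2
      have hQ : Q s = xf s := by unfold Q; rw [if_neg h2]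
      have k := key1 (s := s) e1 h2'
      have k2 := mul_le_mul_of_nonneg_left k hs'.le
      have e : s' * (xf (1 / s') - 1 + 506 / 1000 * (1 / s')) = 506 / 1000 - s' * (1 - xf (1/s')) := by
        field_simp; ring
      have e' : s' * (xf s * (1 / s' * (s - 1) - 1)) = xf s * (s - 1 - s') := by
        field_simp
      rw [e, e'] at k2
      rw [hQ', hQ]
      linarith
  · have h1' := not_lt.mp h1
    have h2' : 1 ≤ s := h1'.trans hss
    have hQ : Q s = xf s := by unfold Q; rw [if_neg (not_lt.mpr h2')]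
    have hQ' : Q s' = xf s' := by unfold Q; rw [if_neg h1]
    rw [hQ, hQ']
    exact key2 h1' h2'

/-- Move probability: own cost `o`, cost on the other machine `c`. -/
noncomputable def mv (o c : ℝ) : ℝ :=
  if o = 0 then (if c = 0 then 1 / 2 else 0) else (if c = 0 then 1 else Q (c / o))

lemma mv_zero_pos {c : ℝ} (hc : c ≠ 0) : mv 0 c = 0 := by simp [mv, hc]
lemma mv_zero_zero : mv 0 0 = 1 / 2 := by simp [mv]
lemma mv_pos_zero {o : ℝ} (ho : o ≠ 0) : mv o 0 = 1 := by simp [mv, ho]
lemma mv_pos_pos {o c : ℝ} (ho : o ≠ 0) (hc : c ≠ 0) : mv o c = Q (c / o) := by simp [mv, ho, hc]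

lemma mv_add {o c : ℝ} (ho : 0 ≤ o) (hc : 0 ≤ c) : mv o c + mv c o = 1 := by
  rcases ho.eq_or_lt with h | h
  · subst h
    rcases hc.eq_or_lt with h' | h'
    · subst h'; rw [mv_zero_zero]; norm_num
    · rw [mv_zero_pos h'.ne', mv_pos_zero h'.ne']; norm_num
  · rcases hc.eq_or_lt with h' | h'
    · subst h'; rw [mv_zero_pos h.ne', mv_pos_zero h.ne']; norm_num
    · rw [mv_pos_pos h.ne' h'.ne', mv_pos_pos h'.ne' h.ne']
      have := Q_add (div_pos h' h)
      rwa [one_div_div] at this

lemma mv_nonneg {o c : ℝ} (ho : 0 ≤ o) (hc : 0 ≤ c) : 0 ≤ mv o c := by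
  rcases ho.eq_or_lt with h | h
  · subst h
    rcases hc.eq_or_lt with h' | h'
    · subst h'; rw [mv_zero_zero]; norm_num
    · rw [mv_zero_pos h'.ne']
  · rcases hc.eq_or_lt with h' | h'
    · subst h'; rw [mv_pos_zero h.ne']; norm_num
    · rw [mv_pos_pos h.ne' h'.ne']; exact Q_nonneg (div_pos h' h)

lemma mv_le_one {o c : ℝ} (ho : 0 ≤ o) (hc : 0 ≤ c) : mv o c ≤ 1 := by
  have := mv_add ho hc
  have := mv_nonneg hc ho
  linarith

lemma mv_anti {o c c' : ℝ} (ho : 0 ≤ o) (hc : 0 ≤ c) (hcc : c ≤ c') : mv o c' ≤ mv o c := by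
  have hc' : 0 ≤ c' := hc.trans hcc
  rcases ho.eq_or_lt with h | h
  · subst h
    rcases hc.eq_or_lt with h' | h'
    · subst h'
      rw [mv_zero_zero]
      rcases hc'.eq_or_lt with h'' | h''
      · subst h''; rw [mv_zero_zero]
      · rw [mv_zero_pos h''.ne']; norm_num
    · rw [mv_zero_pos h'.ne', mv_zero_pos (h'.trans_le hcc).ne']
  · rcases hc.eq_or_lt with h' | h'
    · subst h'; rw [mv_pos_zero h.ne']; exact mv_le_one ho hc'
    · have h'' := h'.trans_le hcc
      rw [mv_pos_pos h.ne' h'.ne', mv_pos_pos h.ne' h''.ne']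
      exact Q_anti (div_pos h' h) (div_le_div_of_nonneg_right hcc ho)

/-- the pair inequality in homogeneous form -/
lemma mv_pair {α γ β δ : ℝ} (hα : 0 ≤ α) (hγ : 0 ≤ γ) (hβ : 0 ≤ β) (hδ : 0 ≤ δ)
    (h : mv β δ ≤ mv α γ) :
    mv β δ * max (α * δ) (β * γ) + (mv α γ - mv β δ) * (α * β + β * γ)
      + (1 - mv α γ) * (α * β) ≤ (1 + 506 / 1000) * (α * β) := by
  rcases hα.eq_or_lt with ha | ha
  · subst ha
    rcases hγ.eq_or_lt with hg | hg
    · subst hg; simp
    · have h0 : mv 0 γ = 0 := mv_zero_pos hg.ne'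
      have h1 : mv β δ = 0 := le_antisymm (h0 ▸ h) (mv_nonneg hβ hδ)
      rw [h0, h1]; simp
  rcases hβ.eq_or_lt with hb | hb
  · subst hb
    rcases hδ.eq_or_lt with hd | hd
    · subst hd; simp
    · have h0 : mv 0 δ = 0 := mv_zero_pos hd.ne'
      rw [h0]; simp
  have hab : 0 < α * β := mul_pos ha hb
  rcases hγ.eq_or_lt with hg | hg
  · subst hg
    rw [mv_pos_zero ha.ne']
    rcases hδ.eq_or_lt with hd | hd
    · subst hd
      rw [mv_pos_zero hb.ne']
      simp only [mul_zero, max_self]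
      nlinarith
    · rw [mv_pos_pos hb.ne' hd.ne']
      have hs := Q_slope (div_pos hd hb)
      have e : α * δ = α * β * (δ / β) := by field_simp
      have : max (α * δ) (β * 0) = α * β * (δ / β) := by
        rw [mul_zero, max_eq_left (by positivity), e]
      rw [this]
      have hs2 := mul_le_mul_of_nonneg_left hs hab.le
      nlinarith
  · rw [mv_pos_pos ha.ne' hg.ne'] at h ⊢
    have hs' : 0 < γ / α := div_pos hg ha
    have e2 : β * γ = α * β * (γ / α) := by field_simp
    rcases hδ.eq_or_lt with hd | hd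
    · subst hd
      rw [mv_pos_zero hb.ne'] at h ⊢
      have h1 : Q (γ / α) = 1 := le_antisymm (Q_le_one hs') h
      have hs := Q_slope hs'
      rw [h1] at hs ⊢
      have : max (α * 0) (β * γ) = α * β * (γ / α) := by
        rw [mul_zero, max_eq_right (by positivity), e2]
      rw [this]
      have hs2 := mul_le_mul_of_nonneg_left hs hab.le
      nlinarith
    · rw [mv_pos_pos hb.ne' hd.ne'] at h ⊢
      have hs : 0 < δ / β := div_pos hd hb
      have e1 : α * δ = α * β * (δ / β) := by field_simp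
      rw [e1, e2]
      set s' := γ / α
      set s := δ / β
      rw [← mul_max_of_nonneg _ _ hab.le]
      rcases le_or_gt s' s with hle | hlt
      · rw [max_eq_left hle]
        have hp := Q_pair hs' hle
        have hp2 := mul_le_mul_of_nonneg_left hp hab.le
        nlinarith
      · rw [max_eq_right hlt.le]
        have h2 : Q s' ≤ Q s := Q_anti hs hlt.le
        have h3 : Q s = Q s' := le_antisymm h h2
        rw [h3]
        have hs3 := Q_slope hs'
        have hp2 := mul_le_mul_of_nonneg_left hs3 hab.le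
        nlinarith

/-- `mv β δ * δ ≤ κ β` -/
lemma mv_mul_le {β δ : ℝ} (hβ : 0 ≤ β) (hδ : 0 ≤ δ) : mv β δ * δ ≤ 506 / 1000 * β := by
  rcases hβ.eq_or_lt with hb | hb
  · subst hb
    rcases hδ.eq_or_lt with hd | hd
    · subst hd; simp
    · rw [mv_zero_pos hd.ne']; simp
  rcases hδ.eq_or_lt with hd | hd
  · subst hd; simp; positivity
  rw [mv_pos_pos hb.ne' hd.ne']
  have hs : 0 < δ / β := div_pos hd hb
  -- use the pair inequality with the second ratio huge
  have hQ0 : Q (δ / β + 3) = 0 := by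
    unfold Q
    rw [if_neg (by push Not; linarith)]
    exact xf_eq_zero (by linarith)
  have hp := Q_pair hs (show δ / β ≤ δ / β + 3 by linarith)
  rw [hQ0] at hp
  have hp2 := mul_le_mul_of_nonneg_right hp hb.le
  have e : (0 * (δ / β + 3 - 1 - δ / β) + δ / β * Q (δ / β)) * β = Q (δ / β) * δ := by
    field_simp; ring
  rw [e] at hp2
  exact hp2

end H67Q.Sched
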