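import Mathlib
import Pool.Agent.H67Q.SchedMove

/-!
The comonotone coupling and its expected makespan.
-/

namespace H67Q.Sched

open scoped BigOperators
open MeasureTheory

/-- the uniform probability space -/
noncomputable def U : Measure ℝ := volume.restrict (Set.Ioc (0:ℝ) 1)

instance : IsProbabilityMeasure U := ⟨by simp [U]⟩

/-- `e m ω = 1` iff `ω < m` -/
noncomputable def e (m ω : ℝ) : ℝ := if ω < m then 1 else 0

lemma e_nonneg (m ω : ℝ) : 0 ≤ e m ω := by unfold e; split_ifs <;> norm_num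
lemma e_le_one (m ω : ℝ) : e m ω ≤ 1 := by unfold e; split_ifs <;> norm_num

lemma e_meas (m : ℝ) : Measurable (e m) :=
  Measurable.ite measurableSet_Iio measurable_const measurable_const

lemma e_int (m : ℝ) : Integrable (e m) U := by
  apply Integrable.of_bound (e_meas m).aestronglyMeasurable 1
  refine Filter.Eventually.of_forall fun ω => ?_
  rw [Real.norm_eq_abs, abs_of_nonneg (e_nonneg m ω)]
  exact e_le_one m ω

lemma U_Iio {m : ℝ} (h0 : 0 ≤ m) (h1 : m ≤ 1) : U.real (Set.Iio m) = m := by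
  have hset : Set.Iio m ∩ Set.Ioc (0:ℝ) 1 = Set.Ioo 0 m := by
    ext x; simp only [Set.mem_inter_iff, Set.mem_Iio, Set.mem_Ioc, Set.mem_Ioo]
    constructor
    · rintro ⟨a, b, c⟩; exact ⟨b, a⟩
    · rintro ⟨a, b⟩; exact ⟨b, a, by linarith⟩
  rw [measureReal_def, U, Measure.restrict_apply measurableSet_Iio, hset, Real.volume_Ioo,
    ENNReal.toReal_ofReal (by linarith)]
  ring

lemma e_integral {m : ℝ} (h0 : 0 ≤ m) (h1 : m ≤ 1) : ∫ ω, e m ω ∂U = m := by
  have : (fun ω => e m ω) = Set.indicator (Set.Iio m) (fun _ => (1:ℝ)) := by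
    funext ω; simp [e, Set.indicator, Set.mem_Iio]
  rw [this, integral_indicator measurableSet_Iio, setIntegral_const, U_Iio h0 h1]
  simp

/-- the pair integrand -/
noncomputable def G (α β γ δ m m' ω : ℝ) : ℝ :=
  max (α * β * (1 - e m ω) + α * δ * e m' ω) (α * β * (1 - e m' ω) + β * γ * e m ω)

lemma G_eq {α β γ δ m m' : ℝ} (hα : 0 ≤ α) (hβ : 0 ≤ β) (hγ : 0 ≤ γ) (h : m' ≤ m) (ω : ℝ) :
    G α β γ δ m m' ω = max (α * δ) (β * γ) * e m' ω
      + (α * β + β * γ) * (e m ω - e m' ω) + α * β * (1 - e m ω) := by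
  unfold G e
  by_cases h1 : ω < m'
  · have h2 : ω < m := h1.trans_le h
    simp [h1, h2]
  · by_cases h2 : ω < m
    · simp only [h1, h2, if_true, if_false]
      have : 0 ≤ α * β + β * γ := by positivity
      simp only [sub_self, mul_zero, add_zero, sub_zero, mul_one]
      rw [max_eq_right this]; ring
    · simp [h1, h2]

lemma G_meas (α β γ δ m m' : ℝ) : Measurable (G α β γ δ m m') := by
  unfold G
  have := e_meas m
  have := e_meas m'
  fun_prop

lemma G_int_aux {α β γ δ m m' : ℝ} (hα : 0 ≤ α) (hβ : 0 ≤ β) (hγ : 0 ≤ γ)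
    (h : m' ≤ m) (h0 : 0 ≤ m') (h1 : m ≤ 1) :
    Integrable (G α β γ δ m m') U ∧ ∫ ω, G α β γ δ m m' ω ∂U = m' * max (α * δ) (β * γ)
      + (m - m') * (α * β + β * γ) + (1 - m) * (α * β) := by
  have hfun : G α β γ δ m m' = fun ω => max (α * δ) (β * γ) * e m' ω
      + (α * β + β * γ) * (e m ω - e m' ω) + α * β * (1 - e m ω) := by
    funext ω; exact G_eq hα hβ hγ h ω
  rw [hfun]
  have i1 := (e_int m').const_mul (max (α * δ) (β * γ))
  have i2 := ((e_int m).sub (e_int m')).const_mul (α * β + β * γ)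
  have i3 := ((integrable_const (μ := U) (1:ℝ)).sub (e_int m)).const_mul (α * β)
  refine ⟨(i1.add i2).add i3, ?_⟩
  have s1 := integral_add (i1.add i2) i3
  have s2 := integral_add i1 i2
  simp only [Pi.add_apply, Pi.sub_apply] at s1 s2
  rw [s1, s2]
  rw [integral_const_mul, integral_const_mul, integral_const_mul,
    integral_sub (e_int m) (e_int m'), integral_sub (integrable_const _) (e_int m),
    e_integral h0 (h.trans h1), e_integral (h0.trans h) h1]
  simp
  ring

lemma G_symm (α β γ δ m m' ω : ℝ) : G α β γ δ m m' ω = G β α δ γ m' m ω := by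
  unfold G
  rw [max_comm]
  congr 1 <;> ring

/-- `m = mv α γ` or dummy -/
lemma G_pair {α γ β δ : ℝ} (hα : 0 ≤ α) (hγ : 0 ≤ γ) (hβ : 0 ≤ β) (hδ : 0 ≤ δ) :
    Integrable (G α β γ δ (mv α γ) (mv β δ)) U ∧
    ∫ ω, G α β γ δ (mv α γ) (mv β δ) ω ∂U ≤ (1 + 506 / 1000) * (α * β) := by
  rcases le_total (mv β δ) (mv α γ) with h | h
  · obtain ⟨h1, h2⟩ := G_int_aux (δ := δ) hα hβ hγ h (mv_nonneg hβ hδ) (mv_le_one hα hγ)
    refine ⟨h1, ?_⟩
    rw [h2]
    exact mv_pair hα hγ hβ hδ h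
  · obtain ⟨h1, h2⟩ := G_int_aux (δ := γ) hβ hα hδ h (mv_nonneg hα hγ) (mv_le_one hβ hδ)
    have hf : G α β γ δ (mv α γ) (mv β δ) = G β α δ γ (mv β δ) (mv α γ) := by
      funext ω; exact G_symm _ _ _ _ _ _ _
    rw [hf]
    refine ⟨h1, ?_⟩
    rw [h2]
    have := mv_pair hβ hδ hα hγ h
    rw [mul_comm α β]
    exact this

lemma G_dummy_left {α β δ : ℝ} (hα : 0 ≤ α) (hβ : 0 ≤ β) (hδ : 0 ≤ δ) :
    Integrable (G α β 0 δ 0 (mv β δ)) U ∧
    ∫ ω, G α β 0 δ 0 (mv β δ) ω ∂U ≤ (1 + 506 / 1000) * (α * β) := by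
  obtain ⟨h1, h2⟩ := G_int_aux (δ := 0) hβ hα hδ (mv_nonneg hβ hδ) le_rfl (mv_le_one hβ hδ)
  have hf : G α β 0 δ 0 (mv β δ) = G β α δ 0 (mv β δ) 0 := by
    funext ω; exact G_symm _ _ _ _ _ _ _
  rw [hf]
  refine ⟨h1, ?_⟩
  rw [h2]
  have := mul_le_mul_of_nonneg_left (mv_mul_le hβ hδ) hα
  nlinarith

lemma G_dummy_right {α β γ : ℝ} (hα : 0 ≤ α) (hβ : 0 ≤ β) (hγ : 0 ≤ γ) :
    Integrable (G α β γ 0 (mv α γ) 0) U ∧
    ∫ ω, G α β γ 0 (mv α γ) 0 ω ∂U ≤ (1 + 506 / 1000) * (α * β) := by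
  have hf : G α β γ 0 (mv α γ) 0 = G β α 0 γ 0 (mv α γ) := by
    funext ω; exact G_symm _ _ _ _ _ _ _
  rw [hf, mul_comm α β]
  exact G_dummy_left hβ hα hγ

lemma G_dummy_both {α β : ℝ} (hα : 0 ≤ α) (hβ : 0 ≤ β) :
    Integrable (G α β 0 0 0 0) U ∧
    ∫ ω, G α β 0 0 0 0 ω ∂U ≤ (1 + 506 / 1000) * (α * β) := by
  obtain ⟨h1, h2⟩ := G_int_aux (δ := 0) (γ := 0) hα hβ le_rfl (le_refl (0:ℝ)) le_rfl zero_le_one
  refine ⟨h1, ?_⟩
  rw [h2]
  have : 0 ≤ α * β := by positivity
  simp only [mul_zero, max_self, sub_self, zero_mul, sub_zero, one_mul, add_zero, zero_add]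
  nlinarith

/-- The coupling bound. -/
theorem coupling {I J : Type} [Fintype I] [Fintype J] (α γ m : I → ℝ) (β δ m' : J → ℝ) (L : ℝ)
    (hL : 0 < L) (hα : ∑ i, α i = L) (hβ : ∑ j, β j = L)
    (hG : ∀ i j, Integrable (G (α i) (β j) (γ i) (δ j) (m i) (m' j)) U ∧
      ∫ ω, G (α i) (β j) (γ i) (δ j) (m i) (m' j) ω ∂U ≤ (1 + 506 / 1000) * (α i * β j)) :
    ∫ ω, max (∑ i, α i * (1 - e (m i) ω) + ∑ j, δ j * e (m' j) ω)
      (∑ j, β j * (1 - e (m' j) ω) + ∑ i, γ i * e (m i) ω) ∂U ≤ (1 + 506 / 1000) * L := by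
  set M : ℝ → ℝ := fun ω => max (∑ i, α i * (1 - e (m i) ω) + ∑ j, δ j * e (m' j) ω)
      (∑ j, β j * (1 - e (m' j) ω) + ∑ i, γ i * e (m i) ω) with hM
  have hpt : ∀ ω, L * M ω ≤ ∑ i, ∑ j, G (α i) (β j) (γ i) (δ j) (m i) (m' j) ω := by
    intro ω
    rw [hM]
    simp only
    rw [mul_max_of_nonneg _ _ hL.le]
    apply max_le
    · have e1 : L * (∑ i, α i * (1 - e (m i) ω) + ∑ j, δ j * e (m' j) ω)
          = ∑ i, ∑ j, (α i * β j * (1 - e (m i) ω) + α i * δ j * e (m' j) ω) := by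
        simp_rw [Finset.sum_add_distrib]
        rw [mul_add]
        congr 1
        · rw [Finset.mul_sum]
          apply Finset.sum_congr rfl
          intro i _
          rw [← hβ, Finset.sum_mul]
          apply Finset.sum_congr rfl
          intro j _
          ring
        · rw [← hα, Finset.sum_mul_sum]
          apply Finset.sum_congr rfl
          intro i _
          apply Finset.sum_congr rfl
          intro j _
          ring
      rw [e1]
      apply Finset.sum_le_sum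
      intro i _
      apply Finset.sum_le_sum
      intro j _
      exact le_max_left _ _
    · have e1 : L * (∑ j, β j * (1 - e (m' j) ω) + ∑ i, γ i * e (m i) ω)
          = ∑ i, ∑ j, (α i * β j * (1 - e (m' j) ω) + β j * γ i * e (m i) ω) := by
        simp_rw [Finset.sum_add_distrib]
        rw [mul_add]
        congr 1
        · rw [← hα, Finset.sum_mul_sum]
          apply Finset.sum_congr rfl
          intro i _
          apply Finset.sum_congr rfl
          intro j _
          ring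
        · rw [Finset.mul_sum]
          apply Finset.sum_congr rfl
          intro i _
          rw [← hβ, Finset.sum_mul]
          apply Finset.sum_congr rfl
          intro j _
          ring
      rw [e1]
      apply Finset.sum_le_sum
      intro i _
      apply Finset.sum_le_sum
      intro j _
      exact le_max_right _ _
  have hint : Integrable (fun ω => ∑ i, ∑ j, G (α i) (β j) (γ i) (δ j) (m i) (m' j) ω) U := by
    apply integrable_finsetSum
    intro i _
    apply integrable_finsetSum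
    intro j _
    exact (hG i j).1
  have hMmeas : Measurable M := by
    have h1 : ∀ i, Measurable (e (m i)) := fun i => e_meas _
    have h2 : ∀ j, Measurable (e (m' j)) := fun j => e_meas _
    rw [hM]
    fun_prop
  have hMb : Integrable M U := by
    have hbd : ∀ ω, |M ω| ≤ (∑ i, |α i| + ∑ j, |δ j|) + (∑ j, |β j| + ∑ i, |γ i|) := by
      intro ω
      have a1 : |∑ i, α i * (1 - e (m i) ω) + ∑ j, δ j * e (m' j) ω| ≤ ∑ i, |α i| + ∑ j, |δ j| := by
        refine (abs_add_le _ _).trans (add_le_add ?_ ?_)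
        · refine (Finset.abs_sum_le_sum_abs _ _).trans (Finset.sum_le_sum fun i _ => ?_)
          rw [abs_mul]
          apply mul_le_of_le_one_right (abs_nonneg _)
          rw [abs_le]; constructor <;> linarith [e_nonneg (m i) ω, e_le_one (m i) ω]
        · refine (Finset.abs_sum_le_sum_abs _ _).trans (Finset.sum_le_sum fun i _ => ?_)
          rw [abs_mul]
          apply mul_le_of_le_one_right (abs_nonneg _)
          rw [abs_le]; constructor <;> linarith [e_nonneg (m' i) ω, e_le_one (m' i) ω]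
      have a2 : |∑ j, β j * (1 - e (m' j) ω) + ∑ i, γ i * e (m i) ω| ≤ ∑ j, |β j| + ∑ i, |γ i| := by
        refine (abs_add_le _ _).trans (add_le_add ?_ ?_)
        · refine (Finset.abs_sum_le_sum_abs _ _).trans (Finset.sum_le_sum fun i _ => ?_)
          rw [abs_mul]
          apply mul_le_of_le_one_right (abs_nonneg _)
          rw [abs_le]; constructor <;> linarith [e_nonneg (m' i) ω, e_le_one (m' i) ω]
        · refine (Finset.abs_sum_le_sum_abs _ _).trans (Finset.sum_le_sum fun i _ => ?_)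
          rw [abs_mul]
          apply mul_le_of_le_one_right (abs_nonneg _)
          rw [abs_le]; constructor <;> linarith [e_nonneg (m i) ω, e_le_one (m i) ω]
      have n1 : 0 ≤ ∑ i, |α i| + ∑ j, |δ j| := by positivity
      have n2 : 0 ≤ ∑ j, |β j| + ∑ i, |γ i| := by positivity
      rw [hM]
      simp only
      rcases max_choice (∑ i, α i * (1 - e (m i) ω) + ∑ j, δ j * e (m' j) ω)
        (∑ j, β j * (1 - e (m' j) ω) + ∑ i, γ i * e (m i) ω) with h | h <;> rw [h] <;> linarith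
    apply Integrable.of_bound hMmeas.aestronglyMeasurable
      ((∑ i, |α i| + ∑ j, |δ j|) + (∑ j, |β j| + ∑ i, |γ i|))
    exact Filter.Eventually.of_forall fun ω => hbd ω
  have h1 : ∫ ω, L * M ω ∂U ≤ ∫ ω, ∑ i, ∑ j, G (α i) (β j) (γ i) (δ j) (m i) (m' j) ω ∂U :=
    integral_mono (hMb.const_mul L) hint hpt
  rw [integral_const_mul, integral_finsetSum _ (fun i _ => integrable_finsetSum _
    (fun j _ => (hG i j).1))] at h1
  have h2 : ∑ i, ∫ ω, ∑ j, G (α i) (β j) (γ i) (δ j) (m i) (m' j) ω ∂U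
      ≤ ∑ i, ∑ j, (1 + 506 / 1000) * (α i * β j) := by
    apply Finset.sum_le_sum
    intro i _
    rw [integral_finsetSum _ (fun j _ => (hG i j).1)]
    apply Finset.sum_le_sum
    intro j _
    exact (hG i j).2
  have h3 : ∑ i, ∑ j, (1 + 506 / 1000 : ℝ) * (α i * β j) = (1 + 506 / 1000) * L * L := by
    have h5 : ∀ i, ∑ j, (1 + 506 / 1000 : ℝ) * (α i * β j) = (1 + 506 / 1000) * L * α i := by
      intro i
      rw [← Finset.mul_sum, ← Finset.mul_sum, hβ]; ring
    simp_rw [h5]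
    rw [← Finset.mul_sum, hα]
  have h4 : L * ∫ ω, M ω ∂U ≤ L * ((1 + 506 / 1000) * L) := by
    calc _ ≤ _ := h1
      _ ≤ _ := h2
      _ = _ := by rw [h3]; ring
  exact le_of_mul_le_mul_left h4 hL

end H67Q.Sched
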