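import Mathlib

/-!
Randomized truthful scheduling on two unrelated machines: definitions.
-/

namespace H67Q.Sched

open MeasureTheory

/-- `t i k` is the time machine `i` needs for job `k` (also used for reports). -/
abbrev Times (n : ℕ) := Fin 2 → Fin n → ℝ

/-- Total processing time of machine `i` when job `k` is assigned to machine `a k`. -/
def load {n : ℕ} (t : Times n) (a : Fin n → Fin 2) (i : Fin 2) : ℝ :=
  ∑ k, if a k = i then t i k else 0

/-- The makespan of the assignment `a`. -/
noncomputable def makespan {n : ℕ} (t : Times n) (a : Fin n → Fin 2) : ℝ :=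
  max (load t a 0) (load t a 1)

/-- The optimal makespan. -/
noncomputable def opt {n : ℕ} (t : Times n) : ℝ := ⨅ a : Fin n → Fin 2, makespan t a

/-- A randomized mechanism for `n` jobs and two machines: on a probability space `Ω`, every report
profile `b` yields a random assignment `alloc b ω` and random (integrable) payments
`pay b ω i`. -/
structure Mechanism (n : ℕ) : Type 1 where
  Ω : Type
  mΩ : MeasurableSpace Ω
  μ : Measure Ω
  prob : IsProbabilityMeasure μ
  alloc : Times n → Ω → Fin n → Fin 2
  pay : Times n → Ω → Fin 2 → ℝ
  alloc_measurable : ∀ b k i, MeasurableSet {ω | alloc b ω k = i}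
  pay_integrable : ∀ b i, Integrable (fun ω => pay b ω i) μ

/-- Expected utility of agent `i` with true time vector `v` when the reports are `b`. -/
noncomputable def Mechanism.utility {n : ℕ} (M : Mechanism n) (b : Times n) (i : Fin 2)
    (v : Fin n → ℝ) : ℝ :=
  letI := M.mΩ
  ∫ ω, (M.pay b ω i - ∑ k, if M.alloc b ω k = i then v k else 0) ∂M.μ

/-- Truthful in expectation: whatever the other agent reports, reporting the true vector `v`
maximises agent `i`'s expected utility (all times and reports are nonnegative). -/
def Mechanism.TruthfulInExpectation {n : ℕ} (M : Mechanism n) : Prop :=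
  ∀ (i : Fin 2) (b : Times n) (v : Fin n → ℝ), (∀ j k, 0 ≤ b j k) → (∀ k, 0 ≤ v k) →
    M.utility b i v ≤ M.utility (Function.update b i v) i v

/-- The expected makespan is at most `c` times the optimum on every instance. -/
def Mechanism.HasRatio {n : ℕ} (M : Mechanism n) (c : ℝ) : Prop :=
  letI := M.mΩ
  ∀ t : Times n, (∀ j k, 0 ≤ t j k) → ∫ ω, makespan t (M.alloc t ω) ∂M.μ ≤ c * opt t

/-- The optimal approximation ratio of truthful-in-expectation mechanisms. -/
noncomputable def rhoTE : ℝ :=
  sInf {c : ℝ | ∀ n : ℕ, 1 ≤ n → ∃ M : Mechanism n, M.TruthfulInExpectation ∧ M.HasRatio c}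

end H67Q.Sched
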