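import Mathlib
import Pool.Agent.H67Q.SchedDefs

/-!
The (known) lower bound `3/2` for truthful-in-expectation mechanisms.
-/

namespace H67Q.Sched

open scoped BigOperators
open MeasureTheory

section
variable {n : ℕ} (M : Mechanism n)

/-- expected allocation of job `k` to machine `i` -/
noncomputable def Mechanism.px (b : Times n) (i : Fin 2) (k : Fin n) : ℝ :=
  letI := M.mΩ
  M.μ.real {ω | M.alloc b ω k = i}

/-- expected payment -/
noncomputable def Mechanism.ep (b : Times n) (i : Fin 2) : ℝ :=
  letI := M.mΩ
  ∫ ω, M.pay b ω i ∂M.μ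

lemma ind_int (b : Times n) (i : Fin 2) (k : Fin n) (c : ℝ) :
    letI := M.mΩ
    Integrable (fun ω => if M.alloc b ω k = i then c else 0) M.μ ∧
    ∫ ω, (if M.alloc b ω k = i then c else 0) ∂M.μ = M.px b i k * c := by
  let _ := M.mΩ
  have _ := M.prob
  have hf : (fun ω => if M.alloc b ω k = i then c else 0)
      = Set.indicator {ω | M.alloc b ω k = i} (fun _ => c) := by
    funext ω; simp [Set.indicator]
  constructor
  · rw [hf]
    exact (integrable_const c).indicator (M.alloc_measurable b k i)
  · rw [hf, integral_indicator (M.alloc_measurable b k i), setIntegral_const]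
    rfl

lemma utility_formula (b : Times n) (i : Fin 2) (v : Fin n → ℝ) :
    M.utility b i v = M.ep b i - ∑ k, M.px b i k * v k := by
  let _ := M.mΩ
  have _ := M.prob
  have h1 : M.utility b i v
      = ∫ ω, (M.pay b ω i - ∑ k, if M.alloc b ω k = i then v k else 0) ∂M.μ := rfl
  rw [h1, integral_sub (M.pay_integrable b i)
    (integrable_finsetSum _ (fun k _ => (ind_int M b i k (v k)).1)),
    integral_finsetSum _ (fun k _ => (ind_int M b i k (v k)).1)]
  simp_rw [(ind_int M b i _ (v _)).2]
  rfl

lemma weak_mono (hT : M.TruthfulInExpectation) (b : Times n) (i : Fin 2) (v : Fin n → ℝ)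
    (hb : ∀ j k, 0 ≤ b j k) (hv : ∀ k, 0 ≤ v k) :
    ∑ k, (M.px (Function.update b i v) i k - M.px b i k) * (v k - b i k) ≤ 0 := by
  have hb' : ∀ j k, 0 ≤ (Function.update b i v) j k := by
    intro j k
    by_cases h : j = i
    · subst h; rw [Function.update_self]; exact hv k
    · rw [Function.update_of_ne h]; exact hb j k
  have h1 := hT i b v hb hv
  have h2 := hT i (Function.update b i v) (b i) hb' (hb i)
  rw [Function.update_idem, Function.update_eq_self] at h2
  rw [utility_formula, utility_formula] at h1 h2
  have : ∑ k, (M.px (Function.update b i v) i k - M.px b i k) * (v k - b i k)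
      = (∑ k, M.px (Function.update b i v) i k * v k - ∑ k, M.px b i k * v k)
        - (∑ k, M.px (Function.update b i v) i k * b i k - ∑ k, M.px b i k * b i k) := by
    simp_rw [← Finset.sum_sub_distrib]
    apply Finset.sum_congr rfl
    intro k _
    ring
  rw [this]
  linarith

lemma px_nonneg (b : Times n) (i : Fin 2) (k : Fin n) : 0 ≤ M.px b i k := measureReal_nonneg

lemma px_add (b : Times n) (k : Fin n) : M.px b 0 k + M.px b 1 k = 1 := by
  let _ := M.mΩ
  have _ := M.prob
  have hc : {ω | M.alloc b ω k = 1} = {ω | M.alloc b ω k = 0}ᶜ := by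
    ext ω; simp only [Set.mem_ofPred_eq, Set.mem_compl_iff]; omega
  unfold Mechanism.px
  rw [hc, probReal_compl_eq_one_sub (M.alloc_measurable b k 0)]
  ring

lemma px_le_one (b : Times n) (i : Fin 2) (k : Fin n) : M.px b i k ≤ 1 := by
  have h := px_add M b k
  have h0 := px_nonneg M b 0 k
  have h1 := px_nonneg M b 1 k
  rcases (show i = 0 ∨ i = 1 by omega) with hi | hi <;> subst hi <;> linarith

lemma px_other (b : Times n) (i : Fin 2) (k : Fin n) : M.px b (1 - i) k = 1 - M.px b i k := by
  have h := px_add M b k
  rcases (show i = 0 ∨ i = 1 by omega) with hi | hi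
  · subst hi
    have : (1 - 0 : Fin 2) = 1 := rfl
    rw [this]; linarith
  · subst hi
    have : (1 - 1 : Fin 2) = 0 := rfl
    rw [this]; linarith

lemma makespan_integrable (b t : Times n) :
    letI := M.mΩ
    Integrable (fun ω => makespan t (M.alloc b ω)) M.μ := by
  let _ := M.mΩ
  have _ := M.prob
  have h : ∀ i, Integrable (fun ω => load t (M.alloc b ω) i) M.μ := by
    intro i
    unfold load
    exact integrable_finsetSum _ fun k _ => (ind_int M b i k (t i k)).1
  exact (h 0).sup (h 1)

end

/-- the base instance: job `0` is a dummy of machine `0`, job `1` a dummy of machine `1`. -/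
def base (A : ℝ) : Times 3 := fun i k =>
  if k = 2 then 1 else if k.val = i.val then 0 else A

/-- the modified vector of machine `i`. -/
def modv (A ε : ℝ) (i : Fin 2) : Fin 3 → ℝ := fun k =>
  if k = 2 then 1 - ε else if k.val = i.val then 1 else A

lemma load_three (t : Times 3) (a : Fin 3 → Fin 2) (i : Fin 2) :
    load t a i = (if a 0 = i then t i 0 else 0) + (if a 1 = i then t i 1 else 0)
      + (if a 2 = i then t i 2 else 0) := by
  unfold load
  rw [Fin.sum_univ_three]

lemma mod_bounds {A ε : ℝ} (hA : 2 ≤ A) (h0 : 0 ≤ ε) (h1 : ε ≤ 1) (i : Fin 2) (a : Fin 3 → Fin 2) :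
    1 + (if a 2 = i then 1 - ε else 0) ≤ makespan (Function.update (base A) i (modv A ε i)) a ∧
    (if a i.castSucc = 1 - i then A else 0)
      ≤ makespan (Function.update (base A) i (modv A ε i)) a := by
  unfold makespan
  rw [load_three, load_three, le_max_iff, le_max_iff]
  rcases (show i = 0 ∨ i = 1 by omega) with hi | hi <;> subst hi <;>
  rcases (show a 0 = 0 ∨ a 0 = 1 by omega) with x0 | x0 <;>
  rcases (show a 1 = 0 ∨ a 1 = 1 by omega) with x1 | x1 <;>
  rcases (show a 2 = 0 ∨ a 2 = 1 by omega) with x2 | x2 <;>
  (refine ⟨?_, ?_⟩ <;>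
  simp [x0, x1, x2, base, modv, Function.update] <;>
  (first | done | (left; linarith) | (right; linarith) | linarith))

lemma opt_le_one {A ε : ℝ} (i : Fin 2) :
    opt (Function.update (base A) i (modv A ε i)) ≤ 1 := by
  unfold opt
  have hbdd : BddBelow (Set.range fun a : Fin 3 → Fin 2 =>
    makespan (Function.update (base A) i (modv A ε i)) a) := (Set.finite_range _).bddBelow
  -- job `0` to machine `0`, job `1` to machine `1`, job `2` to the other machine
  refine (ciInf_le hbdd (fun k => if k = 2 then 1 - i else if k = 0 then 0 else 1)).trans ?_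
  unfold makespan
  rw [load_three, load_three]
  rcases (show i = 0 ∨ i = 1 by omega) with hi | hi <;> subst hi <;>
    simp [base, modv, Function.update]

/-- The lower bound `3/2`. -/
theorem ratio_ge (M : Mechanism 3) (hT : M.TruthfulInExpectation) {c : ℝ} (hc : M.HasRatio c) :
    3 / 2 ≤ c := by
  by_contra hlt
  push Not at hlt
  let _ := M.mΩ
  have _ := M.prob
  set ε : ℝ := min (3 / 2 - c) (1 / 2) with hε
  have hε0 : 0 < ε := lt_min (by linarith) (by norm_num)
  have hε1 : ε ≤ 1 / 2 := min_le_right _ _
  have hεc : ε ≤ 3 / 2 - c := min_le_left _ _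
  set A : ℝ := 8 / ε ^ 2 with hAdef
  have hA2 : 2 ≤ A := by
    rw [hAdef, le_div_iff₀ (by positivity)]
    nlinarith
  -- base instance is nonnegative
  have hb : ∀ j k, 0 ≤ base A j k := by
    intro j k
    unfold base
    split_ifs <;> linarith
  have key : ∀ i : Fin 2, 1 / 2 ≤ M.px (base A) i 2 → False := by
    intro i hi
    set v := modv A ε i with hv
    set b' := Function.update (base A) i v with hb'
    have hvn : ∀ k, 0 ≤ v k := by
      intro k
      rw [hv]; unfold modv
      split_ifs <;> linarith
    have hbn' : ∀ j k, 0 ≤ b' j k := by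
      intro j k
      by_cases h : j = i
      · subst h; rw [hb', Function.update_self]; exact hvn k
      · rw [hb', Function.update_of_ne h]; exact hb j k
    have hmono := weak_mono M hT (base A) i v hb hvn
    rw [← hb', Fin.sum_univ_three] at hmono
    have hr := hc b' hbn'
    have hopt : opt b' ≤ 1 := opt_le_one i
    have hI := makespan_integrable M b' b'
    -- first lower bound for the expected makespan
    have g1 : 1 + M.px b' i 2 * (1 - ε) ≤ ∫ ω, makespan b' (M.alloc b' ω) ∂M.μ := by
      have i1 := (ind_int M b' i 2 (1 - ε)).1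
      have i2 := (ind_int M b' i 2 (1 - ε)).2
      have : ∫ ω, (1 + if M.alloc b' ω 2 = i then 1 - ε else 0) ∂M.μ
          = 1 + M.px b' i 2 * (1 - ε) := by
        rw [integral_add (integrable_const _) i1, i2]; simp
      rw [← this]
      exact integral_mono ((integrable_const _).add i1) hI
        (fun ω => (mod_bounds hA2 hε0.le (by linarith) i _).1)
    have g2 : M.px b' (1 - i) i.castSucc * A ≤ ∫ ω, makespan b' (M.alloc b' ω) ∂M.μ := by
      have i1 := (ind_int M b' (1 - i) i.castSucc A).1
      have i2 := (ind_int M b' (1 - i) i.castSucc A).2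
      rw [← i2]
      exact integral_mono i1 hI
        (fun ω => (mod_bounds hA2 hε0.le (by linarith) i _).2)
    have hx0 := px_nonneg M b' i 2
    have hcpos : 0 < c := by
      have h1 : 0 < c * opt b' := by
        have : 0 ≤ M.px b' i 2 * (1 - ε) := mul_nonneg hx0 (by linarith)
        linarith
      by_contra hneg
      push Not at hneg
      have hon : 0 ≤ opt b' := by
        unfold opt
        apply le_ciInf
        intro a
        have := (mod_bounds hA2 hε0.le (by linarith) i a).1
        have h2 : 0 ≤ (if a 2 = i then 1 - ε else 0) := by split_ifs <;> linarith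
        linarith
      nlinarith
    have hcle : c * opt b' ≤ c := by nlinarith
    -- combine
    rw [px_other] at g2
    have hp1 : (1 - M.px b' i i.castSucc) * A ≤ 3 / 2 := by linarith
    have hp2 : 1 - M.px b' i i.castSucc ≤ 3 / 16 * ε ^ 2 := by
      have : (1 - M.px b' i i.castSucc) * A * ε ^ 2 ≤ 3 / 2 * ε ^ 2 :=
        mul_le_mul_of_nonneg_right hp1 (by positivity)
      rw [hAdef] at this
      have e1 : (1 - M.px b' i i.castSucc) * (8 / ε ^ 2) * ε ^ 2
        = 8 * (1 - M.px b' i i.castSucc) := by field_simp
      rw [e1] at this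
      linarith
    -- monotonicity specialised
    have hm2 : (M.px b' i i.castSucc - M.px (base A) i i.castSucc)
        - ε * (M.px b' i 2 - M.px (base A) i 2) ≤ 0 := by
      have hm3 := hmono
      rcases (show i = 0 ∨ i = 1 by omega) with h | h
      · subst h
        have e0 : v 0 - base A 0 0 = 1 := by simp [hv, modv, base]
        have e1 : v 1 - base A 0 1 = 0 := by simp [hv, modv, base]
        have e2 : v 2 - base A 0 2 = -ε := by simp [hv, modv, base]
        rw [e0, e1, e2] at hm3
        have : (Fin.castSucc (0 : Fin 2)) = (0 : Fin 3) := rfl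
        rw [this]
        linarith
      · subst h
        have e0 : v 0 - base A 1 0 = 0 := by simp [hv, modv, base]
        have e1 : v 1 - base A 1 1 = 1 := by simp [hv, modv, base]
        have e2 : v 2 - base A 1 2 = -ε := by simp [hv, modv, base]
        rw [e0, e1, e2] at hm3
        have : (Fin.castSucc (1 : Fin 2)) = (1 : Fin 3) := rfl
        rw [this]
        linarith
    have hle1 := px_le_one M (base A) i i.castSucc
    have hp3 : ε * (M.px (base A) i 2 - M.px b' i 2) ≤ 3 / 16 * ε ^ 2 := by linarith
    have hp4 : M.px (base A) i 2 - M.px b' i 2 ≤ 3 / 16 * ε := by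
      have : ε * (M.px (base A) i 2 - M.px b' i 2) ≤ ε * (3 / 16 * ε) := by
        calc _ ≤ _ := hp3
          _ = _ := by ring
      exact le_of_mul_le_mul_left this hε0
    have hp5 : 1 / 2 - 3 / 16 * ε ≤ M.px b' i 2 := by linarith
    have hfin : 1 + (1 / 2 - 3 / 16 * ε) * (1 - ε) ≤ c := by
      have := mul_le_mul_of_nonneg_right hp5 (show 0 ≤ 1 - ε by linarith)
      linarith
    nlinarith
  have h := px_add M (base A) 2
  rcases le_total (1 / 2) (M.px (base A) 0 2) with h1 | h1
  · exact key 0 h1
  · exact key 1 (by linarith)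

end H67Q.Sched
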