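import Mathlib
import Pool.Agent.H67Q.SchedDefs
import Pool.Agent.H67Q.SchedCoupling

/-!
The mechanism with ratio `1.506`.
-/

namespace H67Q.Sched

open scoped BigOperators
open MeasureTheory

variable {n : ℕ}

lemma exists_opt (t : Times n) : ∃ a : Fin n → Fin 2, makespan t a = opt t := by
  obtain ⟨a, ha⟩ := exists_eq_ciInf_of_finite (f := fun a : Fin n → Fin 2 => makespan t a)
  exact ⟨a, ha⟩

/-- a chosen optimal assignment -/
noncomputable def best (t : Times n) : Fin n → Fin 2 := Classical.choose (exists_opt t)

lemma best_spec (t : Times n) : makespan t (best t) = opt t := Classical.choose_spec (exists_opt t)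

/-- the random assignment -/
noncomputable def al (b : Times n) (ω : ℝ) (k : Fin n) : Fin 2 :=
  if best b k = 0 then (if ω < mv (b 0 k) (b 1 k) then 1 else 0)
  else (if ω < mv (b 1 k) (b 0 k) then 0 else 1)

lemma al_meas (b : Times n) (k : Fin n) : Measurable (fun ω => al b ω k) := by
  unfold al
  by_cases h : best b k = 0
  · simp only [h, if_true]
    exact Measurable.ite measurableSet_Iio measurable_const measurable_const
  · simp only [h, if_false]
    exact Measurable.ite measurableSet_Iio measurable_const measurable_const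

/-- the expected payment -/
noncomputable def py (b : Times n) (i : Fin 2) : ℝ :=
  ∑ k, (mv (b (1 - i) k) (b i k) * b i k - ∫ y in (0:ℝ)..(b i k), mv (b (1 - i) k) y)

/-- The mechanism. -/
noncomputable def mech (n : ℕ) : Mechanism n where
  Ω := ℝ
  mΩ := inferInstance
  μ := U
  prob := inferInstance
  alloc := al
  pay := fun b _ i => py b i
  alloc_measurable := fun b k i => al_meas b k (measurableSet_singleton i)
  pay_integrable := fun b i => integrable_const _

/-- indicator of `al b ω k = i` -/
lemma al_ind (b : Times n) (hb : ∀ j k, 0 ≤ b j k) (k : Fin n) (i : Fin 2) (v : ℝ) :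
    Integrable (fun ω => if al b ω k = i then v else 0) U ∧
    ∫ ω, (if al b ω k = i then v else 0) ∂U = v * mv (b (1 - i) k) (b i k) := by
  have m01 := mv_nonneg (hb 0 k) (hb 1 k)
  have m10 := mv_nonneg (hb 1 k) (hb 0 k)
  have l01 := mv_le_one (hb 0 k) (hb 1 k)
  have l10 := mv_le_one (hb 1 k) (hb 0 k)
  have hadd := mv_add (hb 0 k) (hb 1 k)
  have hA : ∀ m : ℝ, 0 ≤ m → m ≤ 1 → Integrable (fun ω => v * e m ω) U ∧
      ∫ ω, v * e m ω ∂U = v * m := by
    intro m h0 h1
    refine ⟨(e_int m).const_mul v, ?_⟩
    rw [integral_const_mul, e_integral h0 h1]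
  have hB : ∀ m : ℝ, 0 ≤ m → m ≤ 1 → Integrable (fun ω => v * (1 - e m ω)) U ∧
      ∫ ω, v * (1 - e m ω) ∂U = v * (1 - m) := by
    intro m h0 h1
    refine ⟨((integrable_const (1:ℝ)).sub (e_int m)).const_mul v, ?_⟩
    rw [integral_const_mul, integral_sub (integrable_const _) (e_int m), e_integral h0 h1]
    simp
  by_cases h : best b k = 0
  · rcases (show i = 0 ∨ i = 1 by omega) with hi | hi
    · subst hi
      have hf : (fun ω => if al b ω k = 0 then v else 0)
          = fun ω => v * (1 - e (mv (b 0 k) (b 1 k)) ω) := by
        funext ω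
        unfold al e
        simp only [h, if_true]
        by_cases hω : ω < mv (b 0 k) (b 1 k) <;> simp [hω]
      rw [hf]
      refine ⟨(hB _ m01 l01).1, ?_⟩
      rw [(hB _ m01 l01).2]
      have : (1 - 0 : Fin 2) = 1 := rfl
      rw [this]
      congr 1; linarith
    · subst hi
      have hf : (fun ω => if al b ω k = 1 then v else 0)
          = fun ω => v * (e (mv (b 0 k) (b 1 k)) ω) := by
        funext ω
        unfold al e
        simp only [h, if_true]
        by_cases hω : ω < mv (b 0 k) (b 1 k) <;> simp [hω]
      rw [hf]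
      refine ⟨(hA _ m01 l01).1, ?_⟩
      rw [(hA _ m01 l01).2]
      have : (1 - 1 : Fin 2) = 0 := rfl
      rw [this]
  · rcases (show i = 0 ∨ i = 1 by omega) with hi | hi
    · subst hi
      have hf : (fun ω => if al b ω k = 0 then v else 0)
          = fun ω => v * (e (mv (b 1 k) (b 0 k)) ω) := by
        funext ω
        unfold al e
        simp only [h, if_false]
        by_cases hω : ω < mv (b 1 k) (b 0 k) <;> simp [hω]
      rw [hf]
      refine ⟨(hA _ m10 l10).1, ?_⟩
      rw [(hA _ m10 l10).2]
      have : (1 - 0 : Fin 2) = 1 := rfl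
      rw [this]
    · subst hi
      have hf : (fun ω => if al b ω k = 1 then v else 0)
          = fun ω => v * (1 - e (mv (b 1 k) (b 0 k)) ω) := by
        funext ω
        unfold al e
        simp only [h, if_false]
        by_cases hω : ω < mv (b 1 k) (b 0 k) <;> simp [hω]
      rw [hf]
      refine ⟨(hB _ m10 l10).1, ?_⟩
      rw [(hB _ m10 l10).2]
      have : (1 - 1 : Fin 2) = 0 := rfl
      rw [this]
      congr 1; linarith

lemma utility_eq (b : Times n) (hb : ∀ j k, 0 ≤ b j k) (i : Fin 2) (v : Fin n → ℝ) :
    (mech n).utility b i v = ∑ k, (mv (b (1 - i) k) (b i k) * (b i k - v k)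
      - ∫ y in (0:ℝ)..(b i k), mv (b (1 - i) k) y) := by
  have h1 : (mech n).utility b i v
      = ∫ ω, (py b i - ∑ k, if al b ω k = i then v k else 0) ∂U := rfl
  rw [h1, integral_sub (integrable_const _)
    (integrable_finsetSum _ (fun k _ => (al_ind b hb k i (v k)).1)),
    integral_finsetSum _ (fun k _ => (al_ind b hb k i (v k)).1)]
  simp_rw [(al_ind b hb _ i (v _)).2]
  simp only [integral_const, probReal_univ, one_smul, py]
  rw [← Finset.sum_sub_distrib]
  apply Finset.sum_congr rfl
  intro k _
  ring

lemma mv_intervalIntegrable {o a c : ℝ} (ho : 0 ≤ o) (ha : 0 ≤ a) (hc : 0 ≤ c) :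
    IntervalIntegrable (mv o) volume a c := by
  apply AntitoneOn.intervalIntegrable
  intro x hx y hy hxy
  have h0 : 0 ≤ min a c := le_min ha hc
  have hx0 : 0 ≤ x := h0.trans hx.1
  exact mv_anti ho hx0 hxy

lemma single_truth {o b v : ℝ} (ho : 0 ≤ o) (hb : 0 ≤ b) (hv : 0 ≤ v) :
    mv o b * (b - v) - ∫ y in (0:ℝ)..b, mv o y ≤ - ∫ y in (0:ℝ)..v, mv o y := by
  have h1 : (∫ y in (0:ℝ)..v, mv o y) - ∫ y in (0:ℝ)..b, mv o y = ∫ y in b..v, mv o y :=
    intervalIntegral.integral_interval_sub_left (mv_intervalIntegrable ho le_rfl hv)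
      (mv_intervalIntegrable ho le_rfl hb)
  have h2 : ∫ y in b..v, mv o y ≤ mv o b * (v - b) := by
    rcases le_total b v with h | h
    · have := intervalIntegral.integral_mono_on h (mv_intervalIntegrable ho hb hv)
        (intervalIntegrable_const (c := mv o b)) (fun x hx => mv_anti ho hb hx.1)
      rw [intervalIntegral.integral_const, smul_eq_mul] at this
      linarith
    · rw [intervalIntegral.integral_symm]
      have := intervalIntegral.integral_mono_on h
        (intervalIntegrable_const (c := mv o b)) (mv_intervalIntegrable ho hv hb)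
        (fun x hx => mv_anti ho (hv.trans hx.1) hx.2)
      rw [intervalIntegral.integral_const, smul_eq_mul] at this
      linarith
  linarith

theorem mech_truthful (n : ℕ) : (mech n).TruthfulInExpectation := by
  intro i b v hb hv
  have hb' : ∀ j k, 0 ≤ (Function.update b i v) j k := by
    intro j k
    by_cases h : j = i
    · subst h; rw [Function.update_self]; exact hv k
    · rw [Function.update_of_ne h]; exact hb j k
  rw [utility_eq b hb, utility_eq _ hb']
  have hne : (1 - i : Fin 2) ≠ i := by fin_cases i <;> decide
  rw [Function.update_self, Function.update_of_ne hne]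
  apply Finset.sum_le_sum
  intro k _
  have := single_truth (hb (1 - i) k) (hb i k) (hv k)
  simpa using this

theorem mech_ratio (n : ℕ) : (mech n).HasRatio (1506 / 1000) := by
  intro t ht
  change ∫ ω, makespan t (al t ω) ∂U ≤ 1506 / 1000 * opt t
  set a := best t with ha
  have hopt : makespan t a = opt t := best_spec t
  set L := opt t with hL
  have hl0 : load t a 0 ≤ L := hopt ▸ le_max_left _ _
  have hl1 : load t a 1 ≤ L := hopt ▸ le_max_right _ _
  have hload : ∀ i, load t a i = ∑ k, if a k = i then t i k else 0 := fun i => rfl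
  have hpos : ∀ i k, 0 ≤ (if a k = i then t i k else 0) := by
    intro i k; split_ifs
    · exact ht i k
    · exact le_rfl
  have hl0n : 0 ≤ load t a 0 := Finset.sum_nonneg fun k _ => hpos 0 k
  have hLn : 0 ≤ L := hl0n.trans hl0
  -- loads of the random assignment
  have hL0 : ∀ ω, load t (al t ω) 0
      = ∑ k, (if a k = 0 then t 0 k else 0) * (1 - e (mv (t 0 k) (t 1 k)) ω)
        + ∑ k, (if a k = 1 then t 0 k else 0) * e (mv (t 1 k) (t 0 k)) ω := by
    intro ω
    rw [← Finset.sum_add_distrib]
    unfold load
    apply Finset.sum_congr rfl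
    intro k _
    unfold al e
    rw [← ha]
    by_cases h : a k = 0
    · by_cases h1 : ω < mv (t 0 k) (t 1 k) <;> simp [h, h1]
    · have h' : a k = 1 := by omega
      by_cases h1 : ω < mv (t 1 k) (t 0 k) <;> simp [h', h1]
  have hL1 : ∀ ω, load t (al t ω) 1
      = ∑ k, (if a k = 1 then t 1 k else 0) * (1 - e (mv (t 1 k) (t 0 k)) ω)
        + ∑ k, (if a k = 0 then t 1 k else 0) * e (mv (t 0 k) (t 1 k)) ω := by
    intro ω
    rw [← Finset.sum_add_distrib]
    unfold load
    apply Finset.sum_congr rfl
    intro k _
    unfold al e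
    rw [← ha]
    by_cases h : a k = 0
    · by_cases h1 : ω < mv (t 0 k) (t 1 k) <;> simp [h, h1]
    · have h' : a k = 1 := by omega
      by_cases h1 : ω < mv (t 1 k) (t 0 k) <;> simp [h', h1]
  -- measurability and boundedness of the makespan
  have hm : Integrable (fun ω => makespan t (al t ω)) U := by
    have hmeas : Measurable (fun ω => makespan t (al t ω)) := by
      unfold makespan
      simp_rw [hL0, hL1]
      have h1 : ∀ k, Measurable (e (mv (t 0 k) (t 1 k))) := fun k => e_meas _
      have h2 : ∀ k, Measurable (e (mv (t 1 k) (t 0 k))) := fun k => e_meas _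
      fun_prop
    apply Integrable.of_bound hmeas.aestronglyMeasurable
      ((∑ k, t 0 k) + ∑ k, t 1 k)
    refine Filter.Eventually.of_forall fun ω => ?_
    have hb : ∀ i, 0 ≤ load t (al t ω) i ∧ load t (al t ω) i ≤ ∑ k, t i k := by
      intro i
      unfold load
      constructor
      · apply Finset.sum_nonneg; intro k _; split_ifs
        · exact ht i k
        · exact le_rfl
      · apply Finset.sum_le_sum; intro k _; split_ifs
        · exact le_rfl
        · exact ht i k
    have hs : ∀ i, 0 ≤ ∑ k, t i k := fun i => Finset.sum_nonneg fun k _ => ht i k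
    rw [Real.norm_eq_abs, abs_of_nonneg]
    · apply max_le
      · linarith [(hb 0).2, hs 1]
      · linarith [(hb 1).2, hs 0]
    · exact le_max_of_le_left (hb 0).1
  rcases hLn.eq_or_lt with hz | hLp
  · -- optimum zero: never move anything of positive cost
    rw [← hz, mul_zero]
    have e0 : ∀ k, (if a k = 0 then t 0 k else 0) = 0 := by
      have : ∑ k, (if a k = 0 then t 0 k else 0) = 0 := by
        apply le_antisymm _ (Finset.sum_nonneg fun k _ => hpos 0 k)
        rw [← hload 0, hz]; exact hl0
      intro k
      exact (Finset.sum_eq_zero_iff_of_nonneg (fun k _ => hpos 0 k)).mp this k (Finset.mem_univ k)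
    have e1 : ∀ k, (if a k = 1 then t 1 k else 0) = 0 := by
      have : ∑ k, (if a k = 1 then t 1 k else 0) = 0 := by
        apply le_antisymm _ (Finset.sum_nonneg fun k _ => hpos 1 k)
        rw [← hload 1, hz]; exact hl1
      intro k
      exact (Finset.sum_eq_zero_iff_of_nonneg (fun k _ => hpos 1 k)).mp this k (Finset.mem_univ k)
    have hle : ∀ ω, ω ∈ Set.Ioc (0:ℝ) 1 → makespan t (al t ω) ≤ 0 := by
      intro ω hω
      apply max_le
      · rw [hL0 ω]
        have a1 : ∑ k, (if a k = 0 then t 0 k else 0) * (1 - e (mv (t 0 k) (t 1 k)) ω) = 0 := by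
          apply Finset.sum_eq_zero; intro k _; rw [e0 k, zero_mul]
        have a2 : ∑ k, (if a k = 1 then t 0 k else 0) * e (mv (t 1 k) (t 0 k)) ω = 0 := by
          apply Finset.sum_eq_zero; intro k _
          by_cases h : a k = 1
          · have h1 := e1 k
            rw [if_pos h] at h1 ⊢
            rw [h1]
            rcases (ht 0 k).eq_or_lt with h2 | h2
            · rw [← h2]; simp
            · rw [mv_zero_pos h2.ne']
              unfold e
              rw [if_neg (not_lt.mpr hω.1.le)]; simp
          · rw [if_neg h, zero_mul]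
        rw [a1, a2]; norm_num
      · rw [hL1 ω]
        have a1 : ∑ k, (if a k = 1 then t 1 k else 0) * (1 - e (mv (t 1 k) (t 0 k)) ω) = 0 := by
          apply Finset.sum_eq_zero; intro k _; rw [e1 k, zero_mul]
        have a2 : ∑ k, (if a k = 0 then t 1 k else 0) * e (mv (t 0 k) (t 1 k)) ω = 0 := by
          apply Finset.sum_eq_zero; intro k _
          by_cases h : a k = 0
          · have h1 := e0 k
            rw [if_pos h] at h1 ⊢
            rw [h1]
            rcases (ht 1 k).eq_or_lt with h2 | h2
            · rw [← h2]; simp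
            · rw [mv_zero_pos h2.ne']
              unfold e
              rw [if_neg (not_lt.mpr hω.1.le)]; simp
          · rw [if_neg h, zero_mul]
        rw [a1, a2]; norm_num
    unfold U
    apply setIntegral_nonpos measurableSet_Ioc hle
  · -- main case
    let α : Option (Fin n) → ℝ := fun o => o.elim (L - load t a 0)
      (fun k => if a k = 0 then t 0 k else 0)
    let γ : Option (Fin n) → ℝ := fun o => o.elim 0 (fun k => if a k = 0 then t 1 k else 0)
    let m : Option (Fin n) → ℝ := fun o => o.elim 0 (fun k => if a k = 0 then mv (t 0 k) (t 1 k) else 0)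
    let β : Option (Fin n) → ℝ := fun o => o.elim (L - load t a 1)
      (fun k => if a k = 1 then t 1 k else 0)
    let δ : Option (Fin n) → ℝ := fun o => o.elim 0 (fun k => if a k = 1 then t 0 k else 0)
    let m' : Option (Fin n) → ℝ := fun o => o.elim 0 (fun k => if a k = 1 then mv (t 1 k) (t 0 k) else 0)
    have hα : ∑ i, α i = L := by
      rw [Fintype.sum_option]
      simp only [α, Option.elim]
      rw [← hload 0]; ring
    have hβ : ∑ i, β i = L := by
      rw [Fintype.sum_option]
      simp only [β, Option.elim]
      rw [← hload 1]; ring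
    -- each side is either a dummy or a genuine job
    have hI : ∀ i, 0 ≤ α i ∧ 0 ≤ γ i ∧ ((m i = 0 ∧ γ i = 0) ∨ m i = mv (α i) (γ i)) := by
      intro i
      rcases i with _ | k
      · refine ⟨?_, le_rfl, Or.inl ⟨rfl, rfl⟩⟩
        simp only [α, Option.elim]; linarith
      · by_cases h : a k = 0
        · refine ⟨?_, ?_, Or.inr ?_⟩
          · simp only [α, Option.elim, h, if_true]; exact ht 0 k
          · simp only [γ, Option.elim, h, if_true]; exact ht 1 k
          · simp only [m, α, γ, Option.elim, h, if_true]
        · refine ⟨?_, ?_, Or.inl ?_⟩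
          · simp only [α, Option.elim, h, if_false]; exact le_rfl
          · simp only [γ, Option.elim, h, if_false]; exact le_rfl
          · simp only [m, γ, Option.elim, h, if_false]; exact ⟨trivial, trivial⟩
    have hJ : ∀ j, 0 ≤ β j ∧ 0 ≤ δ j ∧ ((m' j = 0 ∧ δ j = 0) ∨ m' j = mv (β j) (δ j)) := by
      intro j
      rcases j with _ | k
      · refine ⟨?_, le_rfl, Or.inl ⟨rfl, rfl⟩⟩
        simp only [β, Option.elim]; linarith
      · by_cases h : a k = 1
        · refine ⟨?_, ?_, Or.inr ?_⟩
          · simp only [β, Option.elim, h, if_true]; exact ht 1 k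
          · simp only [δ, Option.elim, h, if_true]; exact ht 0 k
          · simp only [m', β, δ, Option.elim, h, if_true]
        · refine ⟨?_, ?_, Or.inl ?_⟩
          · simp only [β, Option.elim, h, if_false]; exact le_rfl
          · simp only [δ, Option.elim, h, if_false]; exact le_rfl
          · simp only [m', δ, Option.elim, h, if_false]; exact ⟨trivial, trivial⟩
    have hG : ∀ i j, Integrable (G (α i) (β j) (γ i) (δ j) (m i) (m' j)) U ∧
        ∫ ω, G (α i) (β j) (γ i) (δ j) (m i) (m' j) ω ∂U ≤ (1 + 506 / 1000) * (α i * β j) := by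
      intro i j
      obtain ⟨ha0, hg0, hi⟩ := hI i
      obtain ⟨hb0, hd0, hj⟩ := hJ j
      rcases hi with ⟨hi1, hi2⟩ | hi
      · rcases hj with ⟨hj1, hj2⟩ | hj
        · rw [hi1, hi2, hj1, hj2]; exact G_dummy_both ha0 hb0
        · rw [hi1, hi2, hj]; exact G_dummy_left ha0 hb0 hd0
      · rcases hj with ⟨hj1, hj2⟩ | hj
        · rw [hi, hj1, hj2]; exact G_dummy_right ha0 hb0 hg0
        · rw [hi, hj]; exact G_pair ha0 hg0 hb0 hd0
    have hc := coupling α γ m β δ m' L hLp hα hβ hG
    have hmono : ∀ ω, makespan t (al t ω) ≤ max (∑ i, α i * (1 - e (m i) ω) + ∑ j, δ j * e (m' j) ω)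
      (∑ j, β j * (1 - e (m' j) ω) + ∑ i, γ i * e (m i) ω) := by
      intro ω
      unfold makespan
      rw [hL0 ω, hL1 ω]
      apply max_le_max
      · apply add_le_add
        · rw [Fintype.sum_option]
          have h0 : 0 ≤ α none * (1 - e (m none) ω) :=
            mul_nonneg (hI none).1 (by linarith [e_le_one (m none) ω])
          have h1 : ∑ k, (if a k = 0 then t 0 k else 0) * (1 - e (mv (t 0 k) (t 1 k)) ω)
              = ∑ k, α (some k) * (1 - e (m (some k)) ω) := by
            apply Finset.sum_congr rfl
            intro k _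
            by_cases h : a k = 0 <;> simp [α, m, h]
          linarith
        · rw [Fintype.sum_option]
          have h0 : 0 ≤ δ none * e (m' none) ω :=
            mul_nonneg (hJ none).2.1 (e_nonneg _ _)
          have h1 : ∑ k, (if a k = 1 then t 0 k else 0) * e (mv (t 1 k) (t 0 k)) ω
              = ∑ k, δ (some k) * e (m' (some k)) ω := by
            apply Finset.sum_congr rfl
            intro k _
            by_cases h : a k = 1 <;> simp [δ, m', h]
          linarith
      · apply add_le_add
        · rw [Fintype.sum_option]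
          have h0 : 0 ≤ β none * (1 - e (m' none) ω) :=
            mul_nonneg (hJ none).1 (by linarith [e_le_one (m' none) ω])
          have h1 : ∑ k, (if a k = 1 then t 1 k else 0) * (1 - e (mv (t 1 k) (t 0 k)) ω)
              = ∑ k, β (some k) * (1 - e (m' (some k)) ω) := by
            apply Finset.sum_congr rfl
            intro k _
            by_cases h : a k = 1 <;> simp [β, m', h]
          linarith
        · rw [Fintype.sum_option]
          have h0 : 0 ≤ γ none * e (m none) ω :=
            mul_nonneg (hI none).2.1 (e_nonneg _ _)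
          have h1 : ∑ k, (if a k = 0 then t 1 k else 0) * e (mv (t 0 k) (t 1 k)) ω
              = ∑ k, γ (some k) * e (m (some k)) ω := by
            apply Finset.sum_congr rfl
            intro k _
            by_cases h : a k = 0 <;> simp [γ, m, h]
          linarith
    have hbig : Integrable (fun ω => max (∑ i, α i * (1 - e (m i) ω) + ∑ j, δ j * e (m' j) ω)
      (∑ j, β j * (1 - e (m' j) ω) + ∑ i, γ i * e (m i) ω)) U := by
      have i1 : Integrable (fun ω => ∑ i, α i * (1 - e (m i) ω) + ∑ j, δ j * e (m' j) ω) U := by
        apply Integrable.add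
        · exact integrable_finsetSum _ fun i _ => ((integrable_const (1:ℝ)).sub (e_int _)).const_mul _
        · exact integrable_finsetSum _ fun i _ => (e_int _).const_mul _
      have i2 : Integrable (fun ω => ∑ j, β j * (1 - e (m' j) ω) + ∑ i, γ i * e (m i) ω) U := by
        apply Integrable.add
        · exact integrable_finsetSum _ fun i _ => ((integrable_const (1:ℝ)).sub (e_int _)).const_mul _
        · exact integrable_finsetSum _ fun i _ => (e_int _).const_mul _
      exact i1.sup i2
    calc ∫ ω, makespan t (al t ω) ∂U ≤ _ := integral_mono hm hbig hmono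
      _ ≤ (1 + 506 / 1000) * L := hc
      _ = 1506 / 1000 * L := by ring

end H67Q.Sched
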